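import Pool.Agent.Q99.HU.Stm1
import Pool.Agent.Q206.HT.NO
import Pool.Agent.W719.BS.LLp

/-!
# Job HU-NDM (project of helper99): one region of the geometric maximum
-/

set_option autoImplicit false

namespace Pool.Agent.Q239.HU

open Finset
open Pool.Agent.W719.BS (LL LL_half)
open Pool.Agent.Q99.FAL (hh Pc Val Pri Pos AS Sol Out c6 fV n1 n2 cor dn)
open Pool.Agent.Q99.HT Pool.Agent.Q99.HU
open Pool.Agent.Q224.FAL (Sol_cor)
open Pool.Agent.Q237.FAL (task_SO)

theorem bf_bf (β : Bool) (x : Fin 6 → ℝ) : bf β (bf β x) = x := by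
  cases β
  · funext i
    fin_cases i <;> rfl
  · rfl

theorem n1_bf (β : Bool) (x : Fin 6 → ℝ) : n1 (bf β x) = n1 x := by
  cases β
  · show x 0 + x 2 + x 1 = x 0 + x 1 + x 2
    ring
  · rfl

theorem n2_bf (β : Bool) (x : Fin 6 → ℝ) : n2 (bf β x) = n2 x := by
  cases β
  · show x 3 + x 5 + x 4 = x 3 + x 4 + x 5
    ring
  · rfl

theorem pt_bf (β : Bool) (x : Fin 6 → ℝ) : pt (bf β x) = pt x := by
  cases β
  · have h1 := n1_bf false x
    have h2 := n2_bf false x
    unfold pt
    rw [Fin.sum_univ_six, Fin.sum_univ_six]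
    have e0 : dn (bf false x) 0 = n2 x := h2
    have e1 : dn (bf false x) 1 = n1 x := h1
    have e2 : dn (bf false x) 2 = n1 x := h1
    have e3 : dn (bf false x) 3 = n1 x := h1
    have e4 : dn (bf false x) 4 = n2 x := h2
    have e5 : dn (bf false x) 5 = n2 x := h2
    have f0 : dn x 0 = n2 x := rfl
    have f1 : dn x 1 = n1 x := rfl
    have f2 : dn x 2 = n1 x := rfl
    have f3 : dn x 3 = n1 x := rfl
    have f4 : dn x 4 = n2 x := rfl
    have f5 : dn x 5 = n2 x := rfl
    rw [e0, e1, e2, e3, e4, e5, f0, f1, f2, f3, f4, f5]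
    have g0 : bf false x 0 = x 0 := rfl
    have g1 : bf false x 1 = x 2 := rfl
    have g2 : bf false x 2 = x 1 := rfl
    have g3 : bf false x 3 = x 3 := rfl
    have g4 : bf false x 4 = x 5 := rfl
    have g5 : bf false x 5 = x 4 := rfl
    rw [g0, g1, g2, g3, g4, g5]
    ring
  · rfl

theorem v0_bf (β : Bool) (x : Fin 6 → ℝ) : v0 (bf β x) = v0 x := by
  cases β
  · unfold v0
    rw [Fin.sum_univ_six, Fin.sum_univ_six]
    have g0 : bf false x 0 = x 0 := rfl
    have g1 : bf false x 1 = x 2 := rfl
    have g2 : bf false x 2 = x 1 := rfl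
    have g3 : bf false x 3 = x 3 := rfl
    have g4 : bf false x 4 = x 5 := rfl
    have g5 : bf false x 5 = x 4 := rfl
    rw [g0, g1, g2, g3, g4, g5]
    ring
  · rfl

/-- at the angle structures the exponent is the volume -/
theorem pt_half {x : Fin 6 → ℝ} (h1 : n1 x = 1 / 2) (h2 : n2 x = 1 / 2) : pt x = v0 x := by
  unfold pt v0 hh
  refine sum_congr rfl fun i _ => ?_
  have h3 : dn x i = 1 / 2 := by
    unfold dn
    split
    · exact h2
    · exact h1
  rw [h3, LL_half]
  ring

/-- JOB HU-NDM -/
theorem task_NDM : S_NDM := by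
  classical
  intro D hV hP hD a ha hDm d β Y hY s x hx hsum h0 h1 h3 hne
  have hp := ha.1
  have hnn := hp.nonneg
  have hsol := (task_SO.1 ℝ D a [0, 0] 1).mp hp.sol
  have hn2 : ∀ k, n2 (a k) = 1 / 2 := by
    intro k
    have e1 := hp.half k
    have e2 := hsol.1 k
    linarith
  rw [hY.al] at h0 h1 h3 hne ⊢
  set y : Fin D.length → Fin 6 → ℝ := Function.update a s (bf (β s) x) with hy
  have hys : y s = bf (β s) x := Function.update_self _ _ _
  have hyk : ∀ k, k ≠ s → y k = a k := fun k hk => Function.update_of_ne hk _ _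
  have hynn : ∀ k i, 0 ≤ y k i := by
    intro k i
    by_cases hk : k = s
    · subst hk
      rw [hys]
      generalize β k = c
      cases c
      · fin_cases i
        · exact hx 0
        · exact hx 2
        · exact hx 1
        · exact hx 3
        · exact hx 5
        · exact hx 4
      · exact hx i
    · rw [hyk k hk]
      exact hnn k i
  have hcor : ∀ k, cor (a k) = cor (y k) := by
    intro k
    by_cases hk : k = s
    · subst hk
      rw [hys]
      have e1 : a k 0 + a k 1 + a k 2 = 1 / 2 := hp.half k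
      have e2 : a k 3 + a k 4 + a k 5 = 1 / 2 := hn2 k
      have e3 : x 0 + x 1 + x 2 + (x 3 + x 4 + x 5) = 1 := hsum
      generalize β k = c at h0 h1 h3 ⊢
      cases c
      · have h0' : x 0 = a k 0 := h0
        have h1' : x 1 + x 4 = a k 2 + a k 5 := h1
        have h3' : x 3 = a k 3 := h3
        funext j
        fin_cases j
        · exact h0'.symm
        · show a k 1 + a k 4 = x 2 + x 5
          linarith
        · exact h3'.symm
        · show a k 2 + a k 5 = x 1 + x 4
          linarith
      · have h0' : x 0 = a k 0 := h0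
        have h1' : x 1 + x 4 = a k 1 + a k 4 := h1
        have h3' : x 3 = a k 3 := h3
        funext j
        fin_cases j
        · exact h0'.symm
        · show a k 1 + a k 4 = x 1 + x 4
          linarith
        · exact h3'.symm
        · show a k 2 + a k 5 = x 2 + x 5
          linarith
    · rw [hyk k hk]
  have hyS : Sol D y [0, 0] 1 := Sol_cor D a y _ _ hcor hp.sol
  have hya : y ≠ a := by
    intro h
    apply hne
    have h4 : bf (β s) x = a s := by rw [← hys, h]
    rw [← h4, bf_bf]
  have h5 := hDm y hynn hyS hya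
  have h6 : ∑ k, pt (y k) = pt x + ∑ k ∈ univ.erase s, pt (a k) := by
    rw [← add_sum_erase univ _ (mem_univ s), hys, pt_bf]
    congr 1
    exact sum_congr rfl fun k hk => by rw [hyk k (ne_of_mem_erase hk)]
  have h7 : fV a = v0 (a s) + ∑ k ∈ univ.erase s, pt (a k) := by
    have h8 : fV a = ∑ k, pt (a k) := by
      unfold fV
      exact sum_congr rfl fun k _ => (pt_half (hp.half k) (hn2 k)).symm
    rw [h8, ← add_sum_erase univ _ (mem_univ s), pt_half (hp.half s) (hn2 s)]
  rw [v0_bf]
  rw [h6, h7] at h5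
  linarith

end Pool.Agent.Q239.HU
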