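import Pool.Agent.Q99.HU.Stm2
import Pool.Agent.Q239.HU.NDM
import Pool.Agent.Q239.HU.NOb

/-!
# Job HU-BAL (project of helper99): a sufficient condition for the global maximum
-/

set_option autoImplicit false

namespace Pool.Agent.Q239.HU

open Finset
open Pool.Agent.Q99.FAL (hh Pc Val Pri Pos AS Sol Out c6 fV n1 n2 cor dn IsLat toR)
open Pool.Agent.Q99.HT Pool.Agent.Q99.HU Pool.Agent.Q206.HT
open Pool.Agent.Q224.FAL (Sol_cor sol_add sol_smul sol_cast lat)
open Pool.Agent.Q237.FAL (task_SO task_OZ task_SUR task_NC)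

theorem bf_zero (β : Bool) {a x : Fin 6 → ℝ} (h : ∀ i, a i = 0 → x i = 0) (i : Fin 6)
    (hi : bf β a i = 0) : bf β x i = 0 := by
  cases β
  · fin_cases i
    · exact h 0 hi
    · exact h 2 hi
    · exact h 1 hi
    · exact h 3 hi
    · exact h 5 hi
    · exact h 4 hi
  · exact h i hi

theorem bf_nonneg (β : Bool) {x : Fin 6 → ℝ} (h : ∀ i, 0 ≤ x i) (i : Fin 6) : 0 ≤ bf β x i := by
  cases β
  · fin_cases i
    · exact h 0
    · exact h 2
    · exact h 1
    · exact h 3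
    · exact h 5
    · exact h 4
  · exact h i

theorem cv_add (β : Bool) (x y : Fin 6 → ℝ) (i : Fin 3) : cv β (x + y) i = cv β x i + cv β y i := by
  cases β <;> fin_cases i
  · rfl
  · show (x 2 + y 2) + (x 5 + y 5) = (x 2 + x 5) + (y 2 + y 5)
    ring
  · rfl
  · rfl
  · show (x 1 + y 1) + (x 4 + y 4) = (x 1 + x 4) + (y 1 + y 4)
    ring
  · rfl

theorem cv_smul (β : Bool) (r : ℝ) (x : Fin 6 → ℝ) (i : Fin 3) : cv β (r • x) i = r * cv β x i := by
  cases β <;> fin_cases i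
  · rfl
  · show r * x 2 + r * x 5 = r * (x 2 + x 5)
    ring
  · rfl
  · rfl
  · show r * x 1 + r * x 4 = r * (x 1 + x 4)
    ring
  · rfl

theorem cv_cast (β : Bool) (x : Fin 6 → ℤ) (i : Fin 3) :
    cv β (fun i => ((x i : ℤ) : ℝ)) i = ((cv β x i : ℤ) : ℝ) := by
  cases β <;> fin_cases i <;> simp [cv]

/-- the corners of a real solution -/
theorem span_cor {D : List Pc} {a : Fin D.length → Fin 6 → ℝ} {β : Fin D.length → Bool} {d : ℕ}
    {Y : Nw D.length d} (hY : NetOf D a β Y) {L : Submodule ℤ (Fin D.length → Fin 6 → ℤ)}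
    (hL : IsLat D L) {y : Fin D.length → Fin 6 → ℝ}
    (hy : y ∈ Submodule.span ℝ (toR '' (L : Set (Fin D.length → Fin 6 → ℤ)))) :
    ∃ t : Fin d → ℝ, ∀ s i, cv (β s) (y s) i = ∑ j, t j * Y.E j s i := by
  induction hy using Submodule.span_induction with
  | mem y hy =>
    obtain ⟨δ, hδ, rfl⟩ := hy
    obtain ⟨t, ht, -⟩ := hY.E2 δ ((hL δ).1 hδ)
    refine ⟨fun j => (t j : ℝ), fun s i => ?_⟩
    have h1 : cv (β s) (toR δ s) i = ((cv (β s) (δ s) i : ℤ) : ℝ) := cv_cast (β s) (δ s) i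
    rw [h1, ht s i]
    push_cast
    rfl
  | zero =>
    refine ⟨0, fun s i => ?_⟩
    have h1 := cv_smul (β s) 0 0 i
    rw [zero_smul, zero_mul] at h1
    show cv (β s) 0 i = _
    rw [h1]
    simp
  | add y z _ _ hy hz =>
    obtain ⟨t, ht⟩ := hy
    obtain ⟨u, hu⟩ := hz
    refine ⟨t + u, fun s i => ?_⟩
    show cv (β s) (y s + z s) i = _
    rw [cv_add, ht, hu, ← sum_add_distrib]
    exact sum_congr rfl fun j _ => by rw [Pi.add_apply]; ring
  | smul r y _ hy =>
    obtain ⟨t, ht⟩ := hy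
    refine ⟨r • t, fun s i => ?_⟩
    show cv (β s) (r • y s) i = _
    rw [cv_smul, ht, mul_sum]
    exact sum_congr rfl fun j _ => by rw [Pi.smul_apply, smul_eq_mul]; ring

/-- JOB HU-BAL -/
theorem task_BAL : S_BAL := by
  classical
  intro hRL hNE hNO D hV hP hD a ha hBal x hx hsol hne
  obtain ⟨d, β, Y, hY⟩ := hNE D hV hP hD a ha
  obtain ⟨hOk, -, hv⟩ := hNO D hV hP hD a ha d β Y hY
  have hp := ha.1
  have hpz := outer_iff hV hp
  have hout : ∀ k i, Out D 1 k (c6 i) → x k i = 0 := fun k i h =>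
    task_OZ.1 D 1 hV x [0, 0] 1 rfl (by simp) hx hsol k i h
  have hβ : ∀ s, β s = decide (a s 1 ≤ a s 2) := by
    intro s
    rw [Bool.eq_iff_iff, hY.be s, decide_eq_true_iff]
  have hsum := ((task_SO.1 ℝ D x [0, 0] 1).mp hsol).1
  have hasum := ((task_SO.1 ℝ D a [0, 0] 1).mp hp.sol).1
  have hn2 : ∀ k, n2 (a k) = 1 / 2 := by
    intro k
    have e1 := hp.half k
    have e2 := hasum k
    linarith
  have hxa : ∀ s i, a s i = 0 → x s i = 0 := fun s i h => hout s i ((hpz s i).1 h)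
  have hB : ∀ s, Bal (Y.α s) := by
    intro s
    rw [hY.al, hβ]
    exact hBal s
  have key : ∀ s, x s ≠ a s →
      pt (x s) < v0 (Y.α s) + mR (Y.α s) (qc (bf (β s) (x s))) := by
    intro s hs
    rw [← pt_bf (β s) (x s)]
    have hz : ∀ i, Y.α s i = 0 → bf (β s) (x s) i = 0 := by
      intro i hi
      rw [hY.al] at hi
      exact bf_zero (β s) (hxa s) i hi
    refine hRL (Y.α s) (hOk.fr s) (hB s) (bf (β s) (x s)) (bf_nonneg _ (hx s)) ?_ (hz 0) ?_ (hz 3) ?_
    · rw [n1_bf, n2_bf]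
      exact hsum s
    · intro h1
      exact ⟨hz 1 h1, hz 4 (((hOk.fr s).z14).1 h1)⟩
    · intro h
      apply hs
      rw [hY.al] at h
      rw [← bf_bf (β s) (x s), h, bf_bf]
  have key2 : ∀ s, pt (x s) ≤ v0 (Y.α s) + mR (Y.α s) (qc (bf (β s) (x s))) := by
    intro s
    by_cases hs : x s = a s
    · have h1 : mR (Y.α s) (qc (bf (β s) (x s))) = 0 := by
        rw [hs, ← hY.al]
        unfold mR
        exact sum_eq_zero fun i _ => by rw [sub_self, mul_zero]
      rw [h1, add_zero, hY.al, v0_bf, hs, pt_half (hp.half s) (hn2 s)]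
    · exact (key s hs).le
  -- the linear part vanishes
  obtain ⟨a0, h0, -⟩ := hY.q0
  have hL : IsLat D (lat task_SO D a0 h0.1) := fun δ => Iff.rfl
  have hsolR : Sol D (x - a) [0, 0] (0 : ℝ) := by
    have h4 := sol_add task_SO hsol (sol_smul task_SO (-1) hp.sol)
    have e : x + (-1 : ℝ) • a = x - a := by
      rw [neg_one_smul, sub_eq_add_neg]
    rw [e] at h4
    simpa using h4
  have houtR : ∀ k i, Out D 1 k (c6 i) → (x - a) k i = 0 := by
    intro k i h
    rw [Pi.sub_apply, Pi.sub_apply, hout k i h, (hpz k i).2 h, sub_zero]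
  obtain ⟨t, ht⟩ := span_cor hY hL (Pool.Agent.Q299.FAL.task_SP task_SO D _ hL _ hsolR houtR)
  have hlin : ∑ s, mR (Y.α s) (qc (bf (β s) (x s))) = 0 := by
    have h1 : ∀ s, mR (Y.α s) (qc (bf (β s) (x s))) =
        ∑ j, t j * ∑ i, ml (Y.α s) i * (Y.E j s i : ℝ) := by
      intro s
      unfold mR
      have h2 : ∀ i, ml (Y.α s) i * (qc (bf (β s) (x s)) i - qc (Y.α s) i) =
          ∑ j, t j * (ml (Y.α s) i * (Y.E j s i : ℝ)) := by
        intro i
        have h3 : qc (bf (β s) (x s)) i - qc (Y.α s) i = cv (β s) ((x - a) s) i := by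
          rw [hY.al, qc_bf, qc_bf]
          have h4 := cv_add (β s) ((x - a) s) (a s) i
          have h5 : (x - a) s + a s = x s := by rw [Pi.sub_apply, sub_add_cancel]
          rw [h5] at h4
          linarith
        rw [h3, ht s i, mul_sum]
        exact sum_congr rfl fun j _ => by ring
      rw [sum_congr rfl fun i _ => h2 i, sum_comm]
      exact sum_congr rfl fun j _ => by rw [mul_sum]
    rw [sum_congr rfl fun s _ => h1 s, sum_comm]
    refine sum_eq_zero fun j _ => ?_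
    rw [← mul_sum, hOk.crit j, mul_zero]
  obtain ⟨s₀, hs₀⟩ : ∃ s, x s ≠ a s := by
    by_contra hc
    push Not at hc
    exact hne (funext hc)
  have hlt : ∑ s, pt (x s) < ∑ s, (v0 (Y.α s) + mR (Y.α s) (qc (bf (β s) (x s)))) :=
    sum_lt_sum (fun s _ => key2 s) ⟨s₀, mem_univ _, key s₀ hs₀⟩
  rw [sum_add_distrib, hlin, add_zero, hv] at hlt
  exact hlt

end Pool.Agent.Q239.HU
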