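import Pool.Agent.Q99.HU.Stm1
import Pool.Agent.Q208.HT.BB
import Pool.Agent.Q239.HU.NDM

/-!
# Job HU-SB (project of helper99): the sum at the lattice points
-/

set_option autoImplicit false

namespace Pool.Agent.Q239.HU

open Finset
open Pool.Agent.W719.BS (D D_pos D_refl LL)
open Pool.Agent.Q99.FAL (bq hh dn n1 n2)
open Pool.Agent.Q99.KN
open Pool.Agent.Q99.HT Pool.Agent.Q99.HU
open Pool.Agent.Q208.HT
open Pool.Agent.Q208.KN (bc_an Wk_an)

/-- value and derivative -/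
noncomputable def WW (N A b C k : ℕ) : ℝ :=
  ‖Wk N (zl N k) A b C‖ + ‖deriv (fun z => Wk N z A b C) (zl N k)‖

/-- value and derivative of one term -/
noncomputable def TT (N A b C k j : ℕ) : ℝ :=
  ‖Tm N (zl N k) A b C j‖ + ‖deriv (fun z => Tm N z A b C j) (zl N k)‖

theorem WW_nonneg (N A b C k : ℕ) : 0 ≤ WW N A b C k := add_nonneg (norm_nonneg _) (norm_nonneg _)

theorem TT_nonneg (N A b C k j : ℕ) : 0 ≤ TT N A b C k j :=
  add_nonneg (norm_nonneg _) (norm_nonneg _)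

theorem WW_le (N A b C k : ℕ) : WW N A b C k ≤ ∑ j ∈ range (b + 1), TT N A b C k j := by
  have e1 : Wk N (zl N k) A b C = ∑ j ∈ range (b + 1), Tm N (zl N k) A b C j := rfl
  have e2 : deriv (fun z => Wk N z A b C) (zl N k) =
      ∑ j ∈ range (b + 1), deriv (fun z => Tm N z A b C j) (zl N k) := by
    have : (fun z => Wk N z A b C) = fun z => ∑ j ∈ range (b + 1), Tm N z A b C j := rfl
    rw [this, deriv_fun_sum fun j _ => (Tm_an N A b C j).differentiableAt]
  unfold WW TT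
  rw [e1, e2, sum_add_distrib]
  exact add_le_add (norm_sum_le _ _) (norm_sum_le _ _)

/-- the largest term -/
theorem sum_max {Q : (Fin 6 → ℝ) → Prop} {T : ℕ → ℝ} {b : ℕ} {K M : ℝ}
    (hT : ∀ j ≤ b, T j = 0 ∨ ∃ x, Q x ∧ T j ≤ K * Real.exp (M * pt x)) (hM : 0 ≤ M) (hK : 0 ≤ K) :
    ∑ j ∈ range (b + 1), T j = 0 ∨ ∃ x, Q x ∧ ∑ j ∈ range (b + 1), T j ≤
      ((b + 1 : ℕ) : ℝ) * (K * Real.exp (M * pt x)) := by
  classical
  set S := (range (b + 1)).filter fun j => T j ≠ 0 with hS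
  by_cases hne : S.Nonempty
  · right
    have h1 : ∀ j ∈ S, ∃ x, Q x ∧ T j ≤ K * Real.exp (M * pt x) := by
      intro j hj
      obtain ⟨h2, h3⟩ := mem_filter.1 hj
      rcases hT j (by have := mem_range.1 h2; omega) with h | h
      · exact absurd h h3
      · exact h
    choose! x hx1 hx2 using h1
    obtain ⟨i, hi, hmax⟩ := S.exists_max_image (fun j => pt (x j)) hne
    refine ⟨x i, hx1 i hi, ?_⟩
    have h4 : ∀ j ∈ range (b + 1), T j ≤ K * Real.exp (M * pt (x i)) := by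
      intro j hj
      by_cases h0 : T j = 0
      · rw [h0]; positivity
      · have hjS : j ∈ S := mem_filter.2 ⟨hj, h0⟩
        refine (hx2 j hjS).trans (mul_le_mul_of_nonneg_left ?_ hK)
        exact Real.exp_le_exp.2 (mul_le_mul_of_nonneg_left (hmax j hjS) hM)
    refine (sum_le_sum h4).trans ?_
    rw [sum_const, card_range, nsmul_eq_mul]
  · left
    rw [not_nonempty_iff_eq_empty] at hne
    refine sum_eq_zero fun j hj => ?_
    by_contra h0
    have : j ∈ S := mem_filter.2 ⟨hj, h0⟩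
    rw [hne] at this
    simp at this

/-- from the terms to the sum -/
theorem WW_of_TT {Q : (Fin 6 → ℝ) → Prop} {N A b C k : ℕ} {K : ℝ} {p : ℕ} (hK : 0 ≤ K)
    (hs : A + b + C < N)
    (hT : ∀ j ≤ b, TT N A b C k j = 0 ∨ ∃ x, Q x ∧ TT N A b C k j ≤ K * N ^ p * Real.exp (N * pt x)) :
    WW N A b C k = 0 ∨ ∃ x, Q x ∧ WW N A b C k ≤ K * N ^ (p + 1) * Real.exp (N * pt x) := by
  rcases sum_max hT (Nat.cast_nonneg N) (by positivity) with h | ⟨x, h1, h2⟩
  · left
    exact le_antisymm ((WW_le N A b C k).trans h.le) (WW_nonneg _ _ _ _ _)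
  · right
    refine ⟨x, h1, (WW_le N A b C k).trans (h2.trans ?_)⟩
    have h3 : ((b + 1 : ℕ) : ℝ) ≤ N := by exact_mod_cast (by omega : b + 1 ≤ N)
    calc ((b + 1 : ℕ) : ℝ) * (K * N ^ p * Real.exp (N * pt x)) ≤
        N * (K * N ^ p * Real.exp (N * pt x)) := mul_le_mul_of_nonneg_right h3 (by positivity)
      _ = _ := by ring

theorem bq_symm {N n x : ℕ} (hn : n < N) (hx : x ≤ n) : bq N n (n - x : ℕ) = bq N n x := by
  rw [bq_val hn (Nat.sub_le n x), bq_val hn hx, Nat.sub_sub_self hx, mul_comm]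

/-- values and derivatives of one term, refined -/
theorem tm_ref {N A b C j k m : ℕ} (hs : A + b + C < N) (hj : j ≤ b) (hkm : k + m + 1 = N) :
    ‖Tm N (zl N k) A b C j‖ = bq N m A * bq N k C * (bq N k j * bq N m (b - j : ℕ)) *
      (bq N k (A + j : ℕ) * bq N m (C + (b - j) : ℕ)) ∧
    (m < A → ‖deriv (fun z => Tm N z A b C j) (zl N k)‖ * bq N k (A - m : ℕ) ≤
      bq N k C * (bq N k j * bq N m (b - j : ℕ)) *
        (bq N k (A + j : ℕ) * bq N m (C + (b - j) : ℕ))) ∧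
    (k < C → ‖deriv (fun z => Tm N z A b C j) (zl N k)‖ * bq N m (C - k : ℕ) ≤
      bq N m A * (bq N m (b - j : ℕ) * bq N k j) *
        (bq N m (C + (b - j) : ℕ) * bq N k (A + j : ℕ))) := by
  have hk : k < N := by omega
  have hmN : m < N := by omega
  have hzl := zl_neg hkm
  have P3 : ∀ x : ℕ, k < x → x < N →
      ‖deriv (fun z : ℂ => bc N ((N - 1 + z) / 2) x) (zl N k)‖ * bq N m (x - k : ℕ) ≤ 1 :=
    fun x hx hxN => by
    have h1 := d3 (N := N) hx hxN
    rw [show N - 1 - k = m by omega] at h1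
    rw [der_p]
    exact h1
  have M3 : ∀ x : ℕ, m < x → x < N →
      ‖deriv (fun z : ℂ => bc N ((N - 1 - z) / 2) x) (zl N k)‖ * bq N k (x - m : ℕ) ≤ 1 :=
    fun x hx hxN => by
    have h1 := d3 (N := N) hx hxN
    rw [show N - 1 - m = k by omega] at h1
    rw [hzl, der_m]
    exact h1
  have g1 : Differentiable ℂ (fun z : ℂ => ((N : ℂ) - 1 + z) / 2) := by fun_prop
  have g2 : Differentiable ℂ (fun z : ℂ => ((N : ℂ) - 1 - z) / 2) := by fun_prop
  have hder := der6 (z := zl N k) (bc_an N A g2).differentiableAt (bc_an N C g1).differentiableAt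
    (bc_an N j g1).differentiableAt (bc_an N (b - j) g2).differentiableAt
    (bc_an N (A + j) g1).differentiableAt (bc_an N (C + (b - j)) g2).differentiableAt
  have hval : ‖Tm N (zl N k) A b C j‖ = bq N m A * bq N k C * (bq N k j * bq N m (b - j : ℕ)) *
      (bq N k (A + j : ℕ) * bq N m (C + (b - j) : ℕ)) := (tm_all hs hj hkm).1
  have hTm : (fun z => Tm N z A b C j) = fun z : ℂ => bc N ((N - 1 - z) / 2) A *
      bc N ((N - 1 + z) / 2) C * (bc N ((N - 1 + z) / 2) j * bc N ((N - 1 - z) / 2) (b - j)) *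
      (bc N ((N - 1 + z) / 2) (A + j) * bc N ((N - 1 - z) / 2) (C + (b - j))) := rfl
  rw [← hTm, zl_p, zl_m' hkm, bc_norm hmN (by omega : A < N), bc_norm hk (by omega : C < N),
    bc_norm hk (by omega : j < N), bc_norm hmN (by omega : b - j < N),
    bc_norm hk (by omega : A + j < N), bc_norm hmN (by omega : C + (b - j) < N)] at hder
  obtain ⟨a1, ha1⟩ : ∃ a, a = bq N m A := ⟨_, rfl⟩
  obtain ⟨a2, ha2⟩ : ∃ a, a = bq N k C := ⟨_, rfl⟩
  obtain ⟨a3, ha3⟩ : ∃ a, a = bq N k j := ⟨_, rfl⟩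
  obtain ⟨a4, ha4⟩ : ∃ a, a = bq N m (b - j : ℕ) := ⟨_, rfl⟩
  obtain ⟨a5, ha5⟩ : ∃ a, a = bq N k (A + j : ℕ) := ⟨_, rfl⟩
  obtain ⟨a6, ha6⟩ : ∃ a, a = bq N m (C + (b - j) : ℕ) := ⟨_, rfl⟩
  have q1 : 0 ≤ a1 := by rw [ha1]; exact bq_nonneg' hmN
  have q2 : 0 ≤ a2 := by rw [ha2]; exact bq_nonneg' hk
  have q3 : 0 ≤ a3 := by rw [ha3]; exact bq_nonneg' hk
  have q4 : 0 ≤ a4 := by rw [ha4]; exact bq_nonneg' hmN
  have q5 : 0 ≤ a5 := by rw [ha5]; exact bq_nonneg' hk
  have q6 : 0 ≤ a6 := by rw [ha6]; exact bq_nonneg' hmN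
  refine ⟨hval, fun hA => ?_, fun hC => ?_⟩
  · have z1 : a1 = 0 := by rw [ha1]; exact bq_zero hA
    rw [← ha1, ← ha2, ← ha3, ← ha4, ← ha5, ← ha6, z1] at hder
    simp only [zero_mul, add_zero] at hder
    have h1 := M3 A hA (by omega)
    have hr : 0 ≤ bq N k (A - m : ℕ) := bq_nonneg' hk
    rw [← ha2, ← ha3, ← ha4, ← ha5, ← ha6]
    refine (mul_le_mul_of_nonneg_right hder hr).trans ?_
    calc ‖deriv (fun z : ℂ => bc N ((N - 1 - z) / 2) A) (zl N k)‖ * a2 * a3 * a4 * a5 * a6 *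
          bq N k (A - m : ℕ)
        = (‖deriv (fun z : ℂ => bc N ((N - 1 - z) / 2) A) (zl N k)‖ * bq N k (A - m : ℕ)) *
          (a2 * a3 * a4 * a5 * a6) := by ring
      _ ≤ 1 * (a2 * a3 * a4 * a5 * a6) := mul_le_mul_of_nonneg_right h1 (by positivity)
      _ = _ := by ring
  · have z2 : a2 = 0 := by rw [ha2]; exact bq_zero hC
    rw [← ha1, ← ha2, ← ha3, ← ha4, ← ha5, ← ha6, z2] at hder
    simp only [mul_zero, zero_mul, add_zero, zero_add] at hder
    have h1 := P3 C hC (by omega)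
    have hr : 0 ≤ bq N m (C - k : ℕ) := bq_nonneg' hmN
    rw [← ha1, ← ha3, ← ha4, ← ha5, ← ha6]
    refine (mul_le_mul_of_nonneg_right hder hr).trans ?_
    calc a1 * ‖deriv (fun z : ℂ => bc N ((N - 1 + z) / 2) C) (zl N k)‖ * a3 * a4 * a5 * a6 *
          bq N m (C - k : ℕ)
        = (‖deriv (fun z : ℂ => bc N ((N - 1 + z) / 2) C) (zl N k)‖ * bq N m (C - k : ℕ)) *
          (a1 * a3 * a4 * a5 * a6) := by ring
      _ ≤ 1 * (a1 * a3 * a4 * a5 * a6) := mul_le_mul_of_nonneg_right h1 (by positivity)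
      _ = _ := by ring

/-- the reversed numbers -/
def rx (x : Fin 6 → ℝ) : Fin 6 → ℝ := ![x 3, x 4, x 5, x 0, x 1, x 2]

theorem pt_rx (x : Fin 6 → ℝ) : pt (rx x) = pt x := by
  unfold pt
  rw [Fin.sum_univ_six, Fin.sum_univ_six]
  have e0 : dn (rx x) 0 = n1 x := rfl
  have e1 : dn (rx x) 1 = n2 x := rfl
  have e2 : dn (rx x) 2 = n2 x := rfl
  have e3 : dn (rx x) 3 = n2 x := rfl
  have e4 : dn (rx x) 4 = n1 x := rfl
  have e5 : dn (rx x) 5 = n1 x := rfl
  have f0 : dn x 0 = n2 x := rfl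
  have f1 : dn x 1 = n1 x := rfl
  have f2 : dn x 2 = n1 x := rfl
  have f3 : dn x 3 = n1 x := rfl
  have f4 : dn x 4 = n2 x := rfl
  have f5 : dn x 5 = n2 x := rfl
  rw [e0, e1, e2, e3, e4, e5, f0, f1, f2, f3, f4, f5]
  have g0 : rx x 0 = x 3 := rfl
  have g1 : rx x 1 = x 4 := rfl
  have g2 : rx x 2 = x 5 := rfl
  have g3 : rx x 3 = x 0 := rfl
  have g4 : rx x 4 = x 1 := rfl
  have g5 : rx x 5 = x 2 := rfl
  rw [g0, g1, g2, g3, g4, g5]
  ring

/-- integral numbers divided by `N - 1` -/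
theorem crn_of {N A b C k m : ℕ} (hN : 2 ≤ N) (hkm : k + m + 1 = N) (a : Fin 6 → ℕ)
    (h0 : a 0 = A) (h1 : a 1 + a 4 = b) (h3 : a 3 = C) (h4 : a 0 + a 1 + a 2 = k)
    (h5 : a 3 + a 4 + a 5 = m) : Crn N A b C (fun i => (a i : ℝ) / (N - 1)) ∧
    ((N : ℝ) - 1) * n1 (fun i => (a i : ℝ) / (N - 1)) = k ∧
    ((N : ℝ) - 1) * n2 (fun i => (a i : ℝ) / (N - 1)) = m := by
  have hN1 : (0 : ℝ) < (N : ℝ) - 1 := by
    have : (2 : ℝ) ≤ N := by exact_mod_cast hN
    linarith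
  have r4 : (a 0 : ℝ) + a 1 + a 2 = k := by exact_mod_cast h4
  have r5 : (a 3 : ℝ) + a 4 + a 5 = m := by exact_mod_cast h5
  have r : (k : ℝ) + m + 1 = N := by exact_mod_cast hkm
  have e1 : ((N : ℝ) - 1) * n1 (fun i => (a i : ℝ) / (N - 1)) = k := by
    show ((N : ℝ) - 1) * ((a 0 : ℝ) / (N - 1) + (a 1 : ℝ) / (N - 1) + (a 2 : ℝ) / (N - 1)) = k
    rw [← r4]
    field_simp
  have e2 : ((N : ℝ) - 1) * n2 (fun i => (a i : ℝ) / (N - 1)) = m := by
    show ((N : ℝ) - 1) * ((a 3 : ℝ) / (N - 1) + (a 4 : ℝ) / (N - 1) + (a 5 : ℝ) / (N - 1)) = m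
    rw [← r5]
    field_simp
  refine ⟨⟨fun i => by positivity, ?_, ?_, ?_, ?_⟩, e1, e2⟩
  · have h6 : ((N : ℝ) - 1) * (n1 (fun i => (a i : ℝ) / (N - 1)) +
        n2 (fun i => (a i : ℝ) / (N - 1))) = ((N : ℝ) - 1) * 1 := by
      rw [mul_add, e1, e2]
      linarith
    exact mul_left_cancel₀ hN1.ne' h6
  · show ((N : ℝ) - 1) * ((a 0 : ℝ) / (N - 1)) = A
    rw [h0]
    field_simp
  · show ((N : ℝ) - 1) * ((a 1 : ℝ) / (N - 1) + (a 4 : ℝ) / (N - 1)) = b
    rw [← h1]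
    push_cast
    field_simp
  · show ((N : ℝ) - 1) * ((a 3 : ℝ) / (N - 1)) = C
    rw [h3]
    field_simp

theorem crn_rx {N A b C : ℕ} {x : Fin 6 → ℝ} (h : Crn N C b A x) : Crn N A b C (rx x) where
  nn := by
    intro i
    fin_cases i
    · exact h.nn 3
    · exact h.nn 4
    · exact h.nn 5
    · exact h.nn 0
    · exact h.nn 1
    · exact h.nn 2
  su := by
    have := h.su
    show x 3 + x 4 + x 5 + (x 0 + x 1 + x 2) = 1
    have h1 : x 0 + x 1 + x 2 + (x 3 + x 4 + x 5) = 1 := this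
    linarith
  c0 := h.c2
  c1 := by
    show ((N : ℝ) - 1) * (x 4 + x 1) = b
    rw [add_comm]
    exact h.c1
  c2 := h.c0

/-- the walls, first case -/
theorem wall1 (hP : ∃ (C : ℝ) (p : ℕ), ∀ (N n m : ℕ) (a : Fin 6 → ℕ), 2 ≤ N → n + m + 1 = N →
    a 0 + a 1 + a 2 = n → a 3 + a 4 + a 5 = m → m < a 0 →
    bq N n (a 3) * (bq N n (a 1) * bq N m (a 4)) * (bq N n (a 2) * bq N m (a 5)) /
      bq N n (a 0 - m : ℕ) ≤ C * N ^ p * Real.exp (N * pt (fun i => (a i : ℝ) / (N - 1)))) :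
    ∃ (C0 : ℝ) (p : ℕ), 0 ≤ C0 ∧ ∀ N A b C k m : ℕ, 2 ≤ N → A + b + C < N → k + m + 1 = N →
    (m < A → WW N A b C k = 0 ∨ ∃ x, (Crn N A b C x ∧ ((N : ℝ) - 1) * n1 x = k) ∧
      WW N A b C k ≤ C0 * N ^ p * Real.exp (N * pt x)) ∧
    (k < C → WW N A b C k = 0 ∨ ∃ x, (Crn N A b C x ∧ ((N : ℝ) - 1) * n1 x = k) ∧
      WW N A b C k ≤ C0 * N ^ p * Real.exp (N * pt x)) := by
  obtain ⟨C1, p, hP⟩ := hP
  refine ⟨|C1|, p + 1, abs_nonneg _, fun N A b C k m hN hs hkm => ⟨fun hmA => ?_, fun hkC => ?_⟩⟩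
  · have hk : k < N := by omega
    have hm : m < N := by omega
    refine WW_of_TT (abs_nonneg _) hs fun j hj => ?_
    obtain ⟨t1, t2, -⟩ := tm_ref hs hj hkm
    have t2 := t2 hmA
    have t4 : bq N m A = 0 := bq_zero hmA
    have hv : ‖Tm N (zl N k) A b C j‖ = 0 := by rw [t1, t4]; ring
    have hTT : TT N A b C k j = ‖deriv (fun z => Tm N z A b C j) (zl N k)‖ := by
      unfold TT
      rw [hv, zero_add]
    have hr : 1 ≤ bq N k (A - m : ℕ) := d4 hk (by omega)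
    have hr0 : 0 < bq N k (A - m : ℕ) := by linarith
    by_cases hw : A + j ≤ k ∧ C + (b - j) ≤ m
    · right
      set a : Fin 6 → ℕ := ![A, j, k - (A + j), C, b - j, m - (C + (b - j))] with ha
      have a0 : a 0 = A := rfl
      have a1 : a 1 = j := rfl
      have a2 : a 2 = k - (A + j) := rfl
      have a3 : a 3 = C := rfl
      have a4 : a 4 = b - j := rfl
      have a5 : a 5 = m - (C + (b - j)) := rfl
      obtain ⟨c1, c2, c3⟩ := crn_of (A := A) (b := b) (C := C) hN hkm a a0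
        (by rw [a1, a4]; omega) a3 (by rw [a0, a1, a2]; omega) (by rw [a3, a4, a5]; omega)
      refine ⟨_, ⟨c1, c2⟩, ?_⟩
      have h1 := hP N k m a hN hkm (by rw [a0, a1, a2]; omega) (by rw [a3, a4, a5]; omega)
        (by rw [a0]; exact hmA)
      rw [a0, a1, a2, a3, a4, a5, bq_symm hk hw.1, bq_symm hm hw.2] at h1
      rw [hTT]
      have h2 : ‖deriv (fun z => Tm N z A b C j) (zl N k)‖ ≤
          bq N k C * (bq N k j * bq N m (b - j : ℕ)) *
            (bq N k (A + j : ℕ) * bq N m (C + (b - j) : ℕ)) / bq N k (A - m : ℕ) := by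
        rw [le_div_iff₀ hr0]
        exact t2
      refine h2.trans (h1.trans ?_)
      refine mul_le_mul_of_nonneg_right (mul_le_mul_of_nonneg_right (le_abs_self _) ?_) ?_
      · positivity
      · positivity
    · left
      have hz : bq N k (A + j : ℕ) * bq N m (C + (b - j) : ℕ) = 0 := by
        rw [not_and_or] at hw
        rcases hw with h | h
        · rw [bq_zero (by omega : k < A + j), zero_mul]
        · rw [bq_zero (by omega : m < C + (b - j)), mul_zero]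
      rw [hz, mul_zero] at t2
      rw [hTT]
      have h3 := norm_nonneg (deriv (fun z => Tm N z A b C j) (zl N k))
      nlinarith
  · have hk : k < N := by omega
    have hm : m < N := by omega
    refine WW_of_TT (abs_nonneg _) hs fun j hj => ?_
    obtain ⟨t1, -, t2⟩ := tm_ref hs hj hkm
    have t2 := t2 hkC
    have t4 : bq N k C = 0 := bq_zero hkC
    have hv : ‖Tm N (zl N k) A b C j‖ = 0 := by rw [t1, t4]; ring
    have hTT : TT N A b C k j = ‖deriv (fun z => Tm N z A b C j) (zl N k)‖ := by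
      unfold TT
      rw [hv, zero_add]
    have hr : 1 ≤ bq N m (C - k : ℕ) := d4 hm (by omega)
    have hr0 : 0 < bq N m (C - k : ℕ) := by linarith
    by_cases hw : A + j ≤ k ∧ C + (b - j) ≤ m
    · right
      set a : Fin 6 → ℕ := ![C, b - j, m - (C + (b - j)), A, j, k - (A + j)] with ha
      have a0 : a 0 = C := rfl
      have a1 : a 1 = b - j := rfl
      have a2 : a 2 = m - (C + (b - j)) := rfl
      have a3 : a 3 = A := rfl
      have a4 : a 4 = j := rfl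
      have a5 : a 5 = k - (A + j) := rfl
      have hmk : m + k + 1 = N := by omega
      obtain ⟨c1, c2, c3⟩ := crn_of (A := C) (b := b) (C := A) hN hmk a a0
        (by rw [a1, a4]; omega) a3 (by rw [a0, a1, a2]; omega) (by rw [a3, a4, a5]; omega)
      refine ⟨rx (fun i => (a i : ℝ) / (N - 1)), ⟨crn_rx c1, c3⟩, ?_⟩
      have h1 := hP N m k a hN hmk (by rw [a0, a1, a2]; omega) (by rw [a3, a4, a5]; omega)
        (by rw [a0]; exact hkC)
      rw [a0, a1, a2, a3, a4, a5, bq_symm hk hw.1, bq_symm hm hw.2] at h1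
      rw [hTT, pt_rx]
      have h2 : ‖deriv (fun z => Tm N z A b C j) (zl N k)‖ ≤
          bq N m A * (bq N m (b - j : ℕ) * bq N k j) *
            (bq N m (C + (b - j) : ℕ) * bq N k (A + j : ℕ)) / bq N m (C - k : ℕ) := by
        rw [le_div_iff₀ hr0]
        exact t2
      refine h2.trans (h1.trans ?_)
      refine mul_le_mul_of_nonneg_right (mul_le_mul_of_nonneg_right (le_abs_self _) ?_) ?_
      · positivity
      · positivity
    · left
      have hz : bq N m (C + (b - j) : ℕ) * bq N k (A + j : ℕ) = 0 := by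
        rw [not_and_or] at hw
        rcases hw with h | h
        · rw [bq_zero (by omega : k < A + j), mul_zero]
        · rw [bq_zero (by omega : m < C + (b - j)), zero_mul]
      rw [hz, mul_zero] at t2
      rw [hTT]
      have h3 := norm_nonneg (deriv (fun z => Tm N z A b C j) (zl N k))
      nlinarith

/-- larger constants -/
theorem grow {C1 C2 Y : ℝ} {N p q : ℕ} (hN : 1 ≤ N) (hC : C1 ≤ C2) (hC2 : 0 ≤ C2) (hpq : p ≤ q)
    (hY : 0 ≤ Y) : C1 * N ^ p * Y ≤ C2 * N ^ q * Y := by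
  have hN1 : (1 : ℝ) ≤ N := by exact_mod_cast hN
  have h1 : (N : ℝ) ^ p ≤ N ^ q := pow_le_pow_right₀ hN1 hpq
  have h2 : C1 * (N : ℝ) ^ p ≤ C2 * N ^ q := by
    calc C1 * (N : ℝ) ^ p ≤ C2 * N ^ p := mul_le_mul_of_nonneg_right hC (by positivity)
      _ ≤ _ := mul_le_mul_of_nonneg_left h1 hC2
  exact mul_le_mul_of_nonneg_right h2 hY

/-- JOB HU-SB -/
theorem task_SB : S_SB := by
  intro hEV hPF hWR hSY hD1 hLBD hPTB hCC hTWS
  obtain ⟨C1, p1, h1⟩ := hTWS hD1 hLBD hPTB hCC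
  obtain ⟨C2, p2, hC2, h2⟩ := wall1 (by
    obtain ⟨C, p, hC⟩ := hPTB hLBD
    exact ⟨C, p, fun N n m a e1 e2 e3 e4 => (hC N n m a e1 e2 e3 e4).2⟩)
  -- the first case
  have key : ∀ N A b C k : ℕ, 2 ≤ N → A + b + C < N → k < N → b ≤ N - 1 - A - b - C →
      WW N A b C k = 0 ∨ ∃ x, Crn N A b C x ∧
        (((N : ℝ) - 1) * n1 x = k ∨ ((N : ℝ) - 1) * n1 x = (N : ℝ) - 1 - k) ∧
        WW N A b C k ≤ (|C1| + C2) * N ^ (p1 + 1 + p2) * Real.exp (N * pt x) := by
    intro N A b C k hN hs hk hb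
    obtain ⟨m, hm⟩ : ∃ m, m = N - 1 - k := ⟨_, rfl⟩
    have hkm : k + m + 1 = N := by omega
    have hmk : m + k + 1 = N := by omega
    have hmr : (m : ℝ) = (N : ℝ) - 1 - k := by
      have : (k : ℝ) + m + 1 = N := by exact_mod_cast hkm
      linarith
    have hev : WW N A b C k = WW N A b C m := F_even hEV hPF hWR hs hkm
    have conv : ∀ {Q : (Fin 6 → ℝ) → Prop}, (∀ x, Q x → Crn N A b C x ∧
        (((N : ℝ) - 1) * n1 x = k ∨ ((N : ℝ) - 1) * n1 x = (N : ℝ) - 1 - k)) →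
        (∃ x, Q x ∧ WW N A b C k ≤ C2 * N ^ p2 * Real.exp (N * pt x)) →
        ∃ x, Crn N A b C x ∧
        (((N : ℝ) - 1) * n1 x = k ∨ ((N : ℝ) - 1) * n1 x = (N : ℝ) - 1 - k) ∧
        WW N A b C k ≤ (|C1| + C2) * N ^ (p1 + 1 + p2) * Real.exp (N * pt x) := by
      intro Q hQ ⟨x, hx1, hx2⟩
      refine ⟨x, (hQ x hx1).1, (hQ x hx1).2, hx2.trans (grow (by omega)
        (by linarith [abs_nonneg C1]) (by positivity) (by omega) (Real.exp_pos _).le)⟩
    by_cases c1 : m < A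
    · rcases (h2 N A b C k m hN hs hkm).1 c1 with h | h
      · exact Or.inl h
      · exact Or.inr (conv (fun x hx => ⟨hx.1, Or.inl hx.2⟩) h)
    by_cases c2 : k < C
    · rcases (h2 N A b C k m hN hs hkm).2 c2 with h | h
      · exact Or.inl h
      · exact Or.inr (conv (fun x hx => ⟨hx.1, Or.inl hx.2⟩) h)
    by_cases c3 : k < A
    · rcases (h2 N A b C m k hN hs hmk).1 c3 with h | h
      · exact Or.inl (hev.trans h)
      · rw [← hev] at h
        exact Or.inr (conv (fun x hx => ⟨hx.1, Or.inr (hx.2.trans hmr)⟩) h)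
    by_cases c4 : m < C
    · rcases (h2 N A b C m k hN hs hmk).2 c4 with h | h
      · exact Or.inl (hev.trans h)
      · rw [← hev] at h
        exact Or.inr (conv (fun x hx => ⟨hx.1, Or.inr (hx.2.trans hmr)⟩) h)
    have h3 : ∀ j ≤ b, TT N A b C k j = 0 ∨ ∃ x, (Crn N A b C x ∧ ((N : ℝ) - 1) * n1 x = k) ∧
        TT N A b C k j ≤ |C1| * N ^ p1 * Real.exp (N * pt x) := by
      intro j hj
      rcases h1 N A b C j k hN hs hb hj hk (by omega) (by omega) (by omega) (by omega) with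
        h | ⟨x, x1, x2, x3⟩
      · exact Or.inl h
      · refine Or.inr ⟨x, ⟨x1, x2⟩, x3.trans (grow (by omega) (le_abs_self _) (abs_nonneg _)
          le_rfl (Real.exp_pos _).le)⟩
    rcases WW_of_TT (abs_nonneg _) hs h3 with h | ⟨x, x1, x2⟩
    · exact Or.inl h
    · exact Or.inr ⟨x, x1.1, Or.inl x1.2, x2.trans (grow (by omega) (by linarith)
        (by positivity) (by omega) (Real.exp_pos _).le)⟩
  refine ⟨|C1| + C2, p1 + 1 + p2, fun N A b C k hN hs hk => ?_⟩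
  by_cases hb : b ≤ N - 1 - A - b - C
  · exact key N A b C k hN hs hk hb
  -- exchange of the right and the left corner
  obtain ⟨γ, hγ⟩ : ∃ γ, γ = N - 1 - A - b - C := ⟨_, rfl⟩
  have hsy : ∀ z, Wk N z A b C = Wk N z A γ C := fun z => by
    rw [hγ]
    exact hSY hPF hWR N (by omega) z A b C hs
  have hWW : WW N A b C k = WW N A γ C k := by
    unfold WW
    rw [hsy]
    have : (fun z => Wk N z A b C) = fun z => Wk N z A γ C := funext hsy
    rw [this]
  have hN1 : (0 : ℝ) < (N : ℝ) - 1 := by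
    have : (2 : ℝ) ≤ N := by exact_mod_cast hN
    linarith
  have hsum : (A : ℝ) + b + C + γ = (N : ℝ) - 1 := by
    have h : A + b + C + γ + 1 = N := by omega
    have : (A : ℝ) + b + C + γ + 1 = N := by exact_mod_cast h
    linarith
  have h4 := key N A γ C k hN (by omega) hk (by omega)
  rw [← hWW] at h4
  rcases h4 with h | ⟨x, x1, x2, x3⟩
  · exact Or.inl h
  · refine Or.inr ⟨bf false x, ?_, ?_, ?_⟩
    · have e0 : ((N : ℝ) - 1) * x 0 = A := x1.c0
      have e1 : ((N : ℝ) - 1) * (x 1 + x 4) = γ := x1.c1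
      have e2 : ((N : ℝ) - 1) * x 3 = C := x1.c2
      have e3 : x 0 + x 1 + x 2 + (x 3 + x 4 + x 5) = 1 := x1.su
      refine ⟨?_, ?_, x1.c0, ?_, x1.c2⟩
      · intro i
        fin_cases i
        · exact x1.nn 0
        · exact x1.nn 2
        · exact x1.nn 1
        · exact x1.nn 3
        · exact x1.nn 5
        · exact x1.nn 4
      · rw [n1_bf, n2_bf]
        exact x1.su
      · show ((N : ℝ) - 1) * (x 2 + x 5) = b
        have e4 : x 2 + x 5 = 1 - x 0 - (x 1 + x 4) - x 3 := by linarith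
        rw [e4]
        linarith
    · rw [n1_bf]
      exact x2
    · rw [pt_bf]
      exact x3

end Pool.Agent.Q239.HU
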