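import Pool.Agent.Q99.HU.Stm2
import Pool.Agent.Q239.HU.SB

/-!
# Job HU-TG6 (project of helper99): the far terms of a region
-/

set_option autoImplicit false

namespace Pool.Agent.Q239.HU

open Finset
open Pool.Agent.Q99.FAL (bq hh dn n1 n2)
open Pool.Agent.Q99.HT Pool.Agent.Q99.HU
open Pool.Agent.Q208.HT

theorem mR_e0 (α : Fin 6 → ℝ) : mR α ![1, 0, 0] =
    ml α 0 * (1 - α 0) + ml α 1 * (0 - (α 1 + α 4)) + ml α 2 * (0 - α 3) := by
  unfold mR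
  rw [Fin.sum_univ_three]
  rfl

theorem lt_half {α : Fin 6 → ℝ} (h : Fr α) : α 0 < 1 / 2 ∧ α 3 < 1 / 2 := by
  have s1 := h.s1
  have s2 := h.s2
  have p2 := h.p2
  have p5 := h.p5
  have h1 := h.nn 1
  have h4 := h.nn 4
  constructor <;> linarith

/-- JOB HU-TG6 -/
theorem task_TG6 : S_TG6 := by
  intro hHIM hTG hT1 α hF hB
  obtain ⟨C0, κ, hκ, hG⟩ := hTG hT1 α hF
  by_cases hα0 : α 0 = 0
  · refine ⟨0, 1, one_pos, fun N n1 n2 A b C j _ _ _ hC h => ?_⟩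
    have := hC.1 hα0
    omega
  obtain ⟨P, hP⟩ : ∃ P, P = v0 α + mR α ![1, 0, 0] := ⟨_, rfl⟩
  have hP0 : 0 < P := by rw [hP]; exact hB.1 hα0
  obtain ⟨c, hc⟩ : ∃ c, c = 1 / 2 - α 0 := ⟨_, rfl⟩
  have hc0 : 0 < c := by rw [hc]; linarith [(lt_half hF).1]
  have hc1 : c ≤ 1 / 2 := by rw [hc]; linarith [hF.nn 0]
  obtain ⟨μ, hμ⟩ : ∃ μ, μ = min P (κ * c ^ 2 / 2) := ⟨_, rfl⟩
  have hμ0 : 0 < μ := by rw [hμ]; exact lt_min hP0 (by positivity)
  have hμP : μ ≤ P := by rw [hμ]; exact min_le_left _ _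
  have hμκ : μ ≤ κ * c ^ 2 / 2 := by rw [hμ]; exact min_le_right _ _
  refine ⟨|C0| * Real.exp κ, μ / 5, by positivity, ?_⟩
  intro N n1 n2 A b C j hN hj hs hCmp hA
  have h1N : n1 < N := by omega
  have h2N : n2 < N := by omega
  have hr0 : 0 ≤ bq N n1 (A - n2 : ℕ) := bq_nonneg' h1N
  by_cases hw : A + j ≤ n1 ∧ C + (b - j) ≤ n2
  swap
  · have hz : bq N n1 (A + j : ℕ) * bq N n2 (C + (b - j) : ℕ) = 0 := by
      rw [not_and_or] at hw
      rcases hw with h | h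
      · rw [bq_zero (by omega : n1 < A + j), zero_mul]
      · rw [bq_zero (by omega : n2 < C + (b - j)), mul_zero]
    rw [hz, mul_zero]
    positivity
  obtain ⟨M, hM⟩ : ∃ M, M = A - n2 := ⟨_, rfl⟩
  obtain ⟨y, hy⟩ : ∃ y, y = b - j := ⟨_, rfl⟩
  obtain ⟨e, he⟩ : ∃ e, e = n2 - C - (b - j) := ⟨_, rfl⟩
  obtain ⟨g, hg⟩ : ∃ g, g = n1 - A - j := ⟨_, rfl⟩
  obtain ⟨n', hn'⟩ : ∃ n', n' = n2 + j + g := ⟨_, rfl⟩
  obtain ⟨N', hN'⟩ : ∃ N', N' = n' + n2 + 1 := ⟨_, rfl⟩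
  have q1 : C + y + e = n2 := by omega
  have q2 : N' + M = N := by omega
  have q3 : n' + M = n1 := by omega
  have h := hHIM M j g C y e
  simp only at h
  rw [q1, ← hn', ← hN', q2, q3] at h
  have hn'N : n' < N' := by omega
  have h2N' : n2 < N' := by omega
  -- the symmetric forms
  have s1 : bq N n1 (A + j : ℕ) = bq N n1 g := by
    rw [← bq_symm h1N hw.1]
    congr 1
    exact_mod_cast (by omega : n1 - (A + j) = g)
  have s2 : bq N n2 (C + (b - j) : ℕ) = bq N n2 e := by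
    rw [← bq_symm h2N hw.2]
    congr 1
    exact_mod_cast (by omega : n2 - (C + (b - j)) = e)
  have s3 : bq N' n' (n2 + j : ℕ) = bq N' n' g := by
    rw [← bq_symm hn'N (by omega : n2 + j ≤ n')]
    congr 1
    exact_mod_cast (by omega : n' - (n2 + j) = g)
  have s4 : bq N' n2 (C + (b - j) : ℕ) = bq N' n2 e := by
    rw [← bq_symm h2N' hw.2]
    congr 1
    exact_mod_cast (by omega : n2 - (C + (b - j)) = e)
  have hCmp' : Cmp α n2 b C := ⟨fun h0 => absurd h0 hα0, hCmp.2.1, hCmp.2.2⟩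
  have hb' := hG N' n' n2 n2 b C j hN'.symm hj hCmp'
  rw [bq_self h2N', one_mul, s3, s4, ← hy] at hb'
  rw [s1, s2, ← hy, ← hM]
  have hre : bq N' n' C * (bq N' n' j * bq N' n2 y) * (bq N' n' g * bq N' n2 e) ≤
      C0 * Real.exp (eX N' α n2 b C - κ * (dX N' α n2 b C n' + ((j : ℝ) - N' * α 1) ^ 2) / N') := hb'
  have hMnn : 0 ≤ bq N n1 M := bq_nonneg' h1N
  have hlhs : bq N n1 C * (bq N n1 j * bq N n2 y) * (bq N n1 g * bq N n2 e) ≤
      bq N n1 M * (bq N' n' C * (bq N' n' j * bq N' n2 y) * (bq N' n' g * bq N' n2 e)) := h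
  refine hlhs.trans (mul_le_mul_of_nonneg_left (hre.trans ?_) hMnn)
  -- the exponents
  have hMr : (A : ℝ) = n2 + M := by exact_mod_cast (by omega : A = n2 + M)
  have hNr : (N : ℝ) = N' + M := by exact_mod_cast q2.symm
  have hn'r : (n' : ℝ) + n2 + 1 = N' := by exact_mod_cast hN'.symm
  have hN'0 : (0 : ℝ) < N' := by exact_mod_cast (by omega : 0 < N')
  have hM0 : (0 : ℝ) ≤ M := Nat.cast_nonneg M
  have hN0 : (0 : ℝ) < N := by linarith
  have e1 : eX N' α n2 b C = eX N α A b C - M * P := by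
    unfold eX
    rw [hP, mR_e0, hMr, hNr]
    ring
  have e2 : c ^ 2 * N' / 2 - 1 ≤ (dX N' α n2 b C n' + ((j : ℝ) - N' * α 1) ^ 2) / N' := by
    rw [le_div_iff₀ hN'0]
    unfold dX
    have u : ((n2 : ℝ) - N' * α 0) + ((n' : ℝ) - N' / 2) = N' * c - 1 := by
      rw [hc]
      linarith
    have u2 : (N' * c - 1) ^ 2 / 2 ≤ ((n2 : ℝ) - N' * α 0) ^ 2 + ((n' : ℝ) - N' / 2) ^ 2 := by
      rw [← u]
      nlinarith [sq_nonneg (((n2 : ℝ) - N' * α 0) - ((n' : ℝ) - N' / 2))]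
    have u3 : (c ^ 2 * N' / 2 - 1) * N' ≤ (N' * c - 1) ^ 2 / 2 := by
      have h9 : N' * c ≤ N' * 1 := mul_le_mul_of_nonneg_left (by linarith) hN'0.le
      have h10 : (N' * c - 1) ^ 2 / 2 = c ^ 2 * N' / 2 * N' - N' * c + 1 / 2 := by ring
      rw [h10, sub_mul]
      linarith
    have v1 := sq_nonneg ((b : ℝ) - N' * (α 1 + α 4))
    have v2 := sq_nonneg ((C : ℝ) - N' * α 3)
    have v3 := sq_nonneg ((j : ℝ) - N' * α 1)
    linarith
  have e3 : dX N α A b C n1 + ((j : ℝ) - N * α 1) ^ 2 ≤ 5 * (N : ℝ) ^ 2 :=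
    five hF hs hj h1N
  have e4 : μ / 5 * (dX N α A b C n1 + ((j : ℝ) - N * α 1) ^ 2) / N ≤ μ * N := by
    rw [div_le_iff₀ hN0]
    calc μ / 5 * (dX N α A b C n1 + ((j : ℝ) - N * α 1) ^ 2) ≤ μ / 5 * (5 * (N : ℝ) ^ 2) :=
          mul_le_mul_of_nonneg_left e3 (by positivity)
      _ = μ * N * N := by ring
  have e5 : eX N' α n2 b C - κ * (dX N' α n2 b C n' + ((j : ℝ) - N' * α 1) ^ 2) / N' ≤
      κ + (eX N α A b C - μ / 5 * (dX N α A b C n1 + ((j : ℝ) - N * α 1) ^ 2) / N) := by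
    have f1 : κ * (c ^ 2 * N' / 2 - 1) ≤
        κ * (dX N' α n2 b C n' + ((j : ℝ) - N' * α 1) ^ 2) / N' := by
      rw [mul_div_assoc κ]
      exact mul_le_mul_of_nonneg_left e2 hκ.le
    have f2 : μ * M ≤ M * P := by rw [mul_comm]; exact mul_le_mul_of_nonneg_left hμP hM0
    have f3 : μ * N' ≤ κ * c ^ 2 / 2 * N' := mul_le_mul_of_nonneg_right hμκ hN'0.le
    have f4 : μ * N = μ * N' + μ * M := by rw [hNr]; ring
    have f5 : κ * (c ^ 2 * N' / 2 - 1) = κ * c ^ 2 / 2 * N' - κ := by ring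
    rw [e1]
    linarith
  calc C0 * Real.exp (eX N' α n2 b C - κ * (dX N' α n2 b C n' + ((j : ℝ) - N' * α 1) ^ 2) / N')
      ≤ |C0| * Real.exp (eX N' α n2 b C -
          κ * (dX N' α n2 b C n' + ((j : ℝ) - N' * α 1) ^ 2) / N') :=
        mul_le_mul_of_nonneg_right (le_abs_self _) (Real.exp_pos _).le
    _ ≤ |C0| * Real.exp (κ + (eX N α A b C -
          μ / 5 * (dX N α A b C n1 + ((j : ℝ) - N * α 1) ^ 2) / N)) :=
        mul_le_mul_of_nonneg_left (Real.exp_le_exp.2 e5) (abs_nonneg _)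
    _ = _ := by rw [Real.exp_add]; ring

end Pool.Agent.Q239.HU
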