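import Pool.Agent.Q99.HU.Stm2
import Pool.Agent.Q239.HU.SB
import Pool.Agent.Q239.HU.TG6

/-!
# Job HU-RL (project of helper99): the tangent plane
-/

set_option autoImplicit false

namespace Pool.Agent.Q239.HU

open Finset Filter Topology
open Pool.Agent.W719.BS (D D_pos LL LL_cont LL_refl)
open Pool.Agent.Q99.FAL (bq hh dn n1 n2)
open Pool.Agent.Q99.HT Pool.Agent.Q99.HU
open Pool.Agent.Q208.HT

/-! ### the function `LL` -/

theorem LL_one_sub (x : ℝ) : LL (1 - x) = -LL x := by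
  have h := LL_refl (1 / 2 - x)
  have e1 : (1 / 2 : ℝ) + (1 / 2 - x) = 1 - x := by ring
  have e2 : (1 / 2 : ℝ) - (1 / 2 - x) = x := by ring
  rw [e1, e2] at h
  exact h

theorem LL_neg (x : ℝ) : LL (-x) = -LL x := by
  unfold LL
  have h1 := intervalIntegral.integral_comp_neg (a := 0) (b := x)
    (fun t => Real.log (2 * Real.sin (Real.pi * t)))
  rw [neg_zero] at h1
  rw [intervalIntegral.integral_symm, ← h1]
  congr 1
  refine intervalIntegral.integral_congr fun t _ => ?_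
  show Real.log (2 * Real.sin (Real.pi * -t)) = Real.log (2 * Real.sin (Real.pi * t))
  rw [mul_neg, Real.sin_neg, mul_neg, Real.log_neg_eq_log]

theorem pt_cont : Continuous pt := by
  unfold pt
  refine continuous_finsetSum _ fun i _ => ?_
  have h1 : Continuous fun x : Fin 6 → ℝ => dn x i := by
    unfold dn n1 n2
    split
    · fun_prop
    · fun_prop
  have h2 : Continuous fun x : Fin 6 → ℝ => dn x i - x i := h1.sub (continuous_apply i)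
  exact ((LL_cont.comp h1).sub (LL_cont.comp h2)).sub (LL_cont.comp (continuous_apply i))

/-! ### brackets -/

/-- the exponent of a bracket -/
noncomputable def tm (N n k : ℕ) : ℝ :=
  LL ((n : ℝ) / (N - 1)) - LL (((n : ℝ) - k) / (N - 1)) - LL ((k : ℝ) / (N - 1))

theorem bq_bounds {C : ℝ} (hC : 0 < C) (h : ∀ N m : ℕ, 2 ≤ N → m < N →
    D N m ≤ C * N ^ 2 * Real.exp (N * LL ((m : ℝ) / (N - 1))) ∧
    Real.exp (N * LL ((m : ℝ) / (N - 1))) ≤ C * N ^ 2 * D N m) {N n k : ℕ} (hN : 2 ≤ N)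
    (hn : n < N) (hk : k ≤ n) :
    Real.exp (N * tm N n k) ≤ (C * N ^ 2) ^ 3 * bq N n k ∧
    bq N n k ≤ (C * N ^ 2) ^ 3 * Real.exp (N * tm N n k) := by
  have hN0 : (0 : ℝ) < N := by exact_mod_cast (by omega : 0 < N)
  obtain ⟨c, hc⟩ : ∃ c, c = C * (N : ℝ) ^ 2 := ⟨_, rfl⟩
  have hc0 : 0 < c := by rw [hc]; positivity
  have p1 := D_pos N n hn
  have p2 := D_pos N (n - k) (by omega)
  have p3 := D_pos N k (by omega)
  obtain ⟨u1, v1⟩ := h N n hN hn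
  obtain ⟨u2, v2⟩ := h N (n - k) hN (by omega)
  obtain ⟨u3, v3⟩ := h N k hN (by omega)
  rw [Nat.cast_sub hk] at u2 v2
  rw [← hc] at u1 u2 u3 v1 v2 v3 ⊢
  rw [bq_val hn hk]
  obtain ⟨e1, he1⟩ : ∃ e, e = Real.exp (N * LL ((n : ℝ) / (N - 1))) := ⟨_, rfl⟩
  obtain ⟨e2, he2⟩ : ∃ e, e = Real.exp (N * LL (((n : ℝ) - k) / (N - 1))) := ⟨_, rfl⟩
  obtain ⟨e3, he3⟩ : ∃ e, e = Real.exp (N * LL ((k : ℝ) / (N - 1))) := ⟨_, rfl⟩
  have q1 : 0 < e1 := by rw [he1]; exact Real.exp_pos _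
  have q2 : 0 < e2 := by rw [he2]; exact Real.exp_pos _
  have q3 : 0 < e3 := by rw [he3]; exact Real.exp_pos _
  have hE : Real.exp (N * tm N n k) = e1 / (e2 * e3) := by
    unfold tm
    rw [he1, he2, he3, ← Real.exp_add, ← Real.exp_sub]
    congr 1
    ring
  rw [← he1] at u1 v1
  rw [← he2] at u2 v2
  rw [← he3] at u3 v3
  rw [hE]
  obtain ⟨d1, hd1⟩ : ∃ d, d = D N n := ⟨_, rfl⟩
  obtain ⟨d2, hd2⟩ : ∃ d, d = D N (n - k) := ⟨_, rfl⟩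
  obtain ⟨d3, hd3⟩ : ∃ d, d = D N k := ⟨_, rfl⟩
  rw [← hd1] at p1 u1 v1 ⊢
  rw [← hd2] at p2 u2 v2 ⊢
  rw [← hd3] at p3 u3 v3 ⊢
  constructor
  · rw [← mul_div_assoc, div_le_div_iff₀ (by positivity) (by positivity)]
    have w : d2 * d3 ≤ (c * e2) * (c * e3) := mul_le_mul u2 u3 p3.le (by positivity)
    calc e1 * (d2 * d3) ≤ (c * d1) * ((c * e2) * (c * e3)) :=
          mul_le_mul v1 w (by positivity) (by positivity)
      _ = _ := by ring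
  · rw [← mul_div_assoc, div_le_div_iff₀ (by positivity) (by positivity)]
    have w : e2 * e3 ≤ (c * d2) * (c * d3) := mul_le_mul v2 v3 q3.le (by positivity)
    calc d1 * (e2 * e3) ≤ (c * e1) * ((c * d2) * (c * d3)) :=
          mul_le_mul u1 w (by positivity) (by positivity)
      _ = _ := by ring

/-- the exponent of a region is the sum of the exponents of the brackets -/
theorem pt_tm (N : ℕ) (a : Fin 6 → ℕ) : pt (fun i => (a i : ℝ) / (N - 1)) =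
    tm N (a 3 + a 4 + a 5) (a 0) + tm N (a 0 + a 1 + a 2) (a 1) + tm N (a 0 + a 1 + a 2) (a 2) +
    tm N (a 0 + a 1 + a 2) (a 3) + tm N (a 3 + a 4 + a 5) (a 4) +
    tm N (a 3 + a 4 + a 5) (a 5) := by
  have h1 : n1 (fun i => (a i : ℝ) / (N - 1)) = ((a 0 + a 1 + a 2 : ℕ) : ℝ) / (N - 1) := by
    show (a 0 : ℝ) / (N - 1) + (a 1 : ℝ) / (N - 1) + (a 2 : ℝ) / (N - 1) = _
    push_cast
    ring
  have h2 : n2 (fun i => (a i : ℝ) / (N - 1)) = ((a 3 + a 4 + a 5 : ℕ) : ℝ) / (N - 1) := by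
    show (a 3 : ℝ) / (N - 1) + (a 4 : ℝ) / (N - 1) + (a 5 : ℝ) / (N - 1) = _
    push_cast
    ring
  unfold pt
  rw [Fin.sum_univ_six]
  have f0 : dn (fun i => (a i : ℝ) / (N - 1)) 0 = _ := h2
  have f1 : dn (fun i => (a i : ℝ) / (N - 1)) 1 = _ := h1
  have f2 : dn (fun i => (a i : ℝ) / (N - 1)) 2 = _ := h1
  have f3 : dn (fun i => (a i : ℝ) / (N - 1)) 3 = _ := h1
  have f4 : dn (fun i => (a i : ℝ) / (N - 1)) 4 = _ := h2
  have f5 : dn (fun i => (a i : ℝ) / (N - 1)) 5 = _ := h2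
  rw [f0, f1, f2, f3, f4, f5]
  unfold tm
  simp only [sub_div]

/-! ### the limit -/

/-- the square of the distance from the centre -/
noncomputable def Ex (α x : Fin 6 → ℝ) : ℝ :=
  (x 0 - α 0) ^ 2 + (x 1 + x 4 - (α 1 + α 4)) ^ 2 + (x 3 - α 3) ^ 2 +
    (x 0 + x 1 + x 2 - 1 / 2) ^ 2 + (x 1 - α 1) ^ 2

theorem Ex_nonneg (α x : Fin 6 → ℝ) : 0 ≤ Ex α x := by
  unfold Ex
  positivity

/-- the tangent plane minus the square -/
noncomputable def Gx (α : Fin 6 → ℝ) (κ : ℝ) (x : Fin 6 → ℝ) : ℝ :=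
  v0 α + (ml α 0 * (x 0 - α 0) + ml α 1 * (x 1 + x 4 - (α 1 + α 4)) + ml α 2 * (x 3 - α 3)) -
    κ * Ex α x

theorem Gx_cont (α : Fin 6 → ℝ) (κ : ℝ) : Continuous (Gx α κ) := by
  unfold Gx Ex
  fun_prop

theorem Gx_eq (α : Fin 6 → ℝ) (κ : ℝ) (x : Fin 6 → ℝ) :
    Gx α κ x = v0 α + mR α ![x 0, x 1 + x 4, x 3] - κ * Ex α x := by
  unfold Gx mR
  rw [Fin.sum_univ_three]
  rfl

theorem log_lim (c p : ℝ) : Tendsto (fun N : ℕ => (c + p * Real.log N) / N) atTop (𝓝 0) := by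
  have h1 : Tendsto (fun N : ℕ => Real.log (N : ℝ) / (N : ℝ)) atTop (𝓝 0) :=
    (Real.isLittleO_log_id_atTop.tendsto_div_nhds_zero).comp tendsto_natCast_atTop_atTop
  have h2 : Tendsto (fun N : ℕ => c / (N : ℝ)) atTop (𝓝 0) := tendsto_const_div_atTop_nhds_zero_nat c
  have h3 := h2.add (h1.const_mul p)
  rw [mul_zero, add_zero] at h3
  refine h3.congr fun N => ?_
  ring

theorem lim_ineq {α x : Fin 6 → ℝ} {κ K : ℝ} {p : ℕ} (a : ℕ → Fin 6 → ℕ)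
    (hT : Tendsto (fun N : ℕ => fun i => (a N i : ℝ) / N) atTop (𝓝 x))
    (hY : Tendsto (fun N : ℕ => fun i => (a N i : ℝ) / (N - 1)) atTop (𝓝 x))
    (h : ∀ᶠ N : ℕ in atTop, Real.exp (N * pt (fun i => (a N i : ℝ) / (N - 1))) ≤
      K * N ^ p * Real.exp (eX N α (a N 0) (a N 1 + a N 4) (a N 3) -
        κ * (dX N α (a N 0) (a N 1 + a N 4) (a N 3) (a N 0 + a N 1 + a N 2) +
          ((a N 1 : ℝ) - N * α 1) ^ 2) / N)) :
    pt x ≤ Gx α κ x := by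
  obtain ⟨K', hK'⟩ : ∃ K', K' = max K 1 := ⟨_, rfl⟩
  have hK1 : 1 ≤ K' := by rw [hK']; exact le_max_right _ _
  have hKK : K ≤ K' := by rw [hK']; exact le_max_left _ _
  have hR : Tendsto (fun N : ℕ => (Real.log K' + p * Real.log N) / N +
      Gx α κ (fun i => (a N i : ℝ) / N)) atTop (𝓝 (0 + Gx α κ x)) :=
    (log_lim _ _).add (((Gx_cont α κ).tendsto x).comp hT)
  rw [zero_add] at hR
  refine le_of_tendsto_of_tendsto ((pt_cont.tendsto x).comp hY) hR ?_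
  filter_upwards [h, eventually_ge_atTop 1] with N hN hN1
  have hN0 : (0 : ℝ) < N := by exact_mod_cast hN1
  have hlog : N * pt (fun i => (a N i : ℝ) / (N - 1)) ≤
      (Real.log K' + p * Real.log N) + (eX N α (a N 0) (a N 1 + a N 4) (a N 3) -
        κ * (dX N α (a N 0) (a N 1 + a N 4) (a N 3) (a N 0 + a N 1 + a N 2) +
          ((a N 1 : ℝ) - N * α 1) ^ 2) / N) := by
    have h2 := hN.trans (mul_le_mul_of_nonneg_right (mul_le_mul_of_nonneg_right hKK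
      (by positivity : (0 : ℝ) ≤ N ^ p)) (Real.exp_pos _).le)
    have h3 : K' * (N : ℝ) ^ p = Real.exp (Real.log K' + p * Real.log N) := by
      rw [Real.exp_add, Real.exp_log (by linarith), ← Real.log_pow, Real.exp_log (by positivity)]
    rw [h3, ← Real.exp_add] at h2
    exact Real.exp_le_exp.1 h2
  have h4 : eX N α (a N 0) (a N 1 + a N 4) (a N 3) -
        κ * (dX N α (a N 0) (a N 1 + a N 4) (a N 3) (a N 0 + a N 1 + a N 2) +
          ((a N 1 : ℝ) - N * α 1) ^ 2) / N = N * Gx α κ (fun i => (a N i : ℝ) / N) := by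
    unfold eX dX Gx Ex
    push_cast
    field_simp
    ring
  rw [h4] at hlog
  show pt (fun i => (a N i : ℝ) / (N - 1)) ≤ (Real.log K' + p * Real.log N) / N +
      Gx α κ (fun i => (a N i : ℝ) / N)
  have h5 : pt (fun i => (a N i : ℝ) / (N - 1)) ≤
      ((Real.log K' + p * Real.log N) + N * Gx α κ (fun i => (a N i : ℝ) / N)) / N := by
    rw [le_div_iff₀ hN0, mul_comm]
    exact hlog
  refine h5.trans (le_of_eq ?_)
  field_simp

/-! ### the lattice points near a point -/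

/-- the integral points -/
noncomputable def sq6 (x : Fin 6 → ℝ) (N : ℕ) : Fin 6 → ℕ :=
  ![⌊((N : ℝ) - 1) * x 0⌋₊, ⌊((N : ℝ) - 1) * x 1⌋₊,
    (N - 1) - (⌊((N : ℝ) - 1) * x 0⌋₊ + ⌊((N : ℝ) - 1) * x 1⌋₊ + ⌊((N : ℝ) - 1) * x 3⌋₊ +
      ⌊((N : ℝ) - 1) * x 4⌋₊ + ⌊((N : ℝ) - 1) * x 5⌋₊),
    ⌊((N : ℝ) - 1) * x 3⌋₊, ⌊((N : ℝ) - 1) * x 4⌋₊, ⌊((N : ℝ) - 1) * x 5⌋₊]

theorem sq6_spec {x : Fin 6 → ℝ} (hx : ∀ i, 0 ≤ x i)
    (hs : x 0 + x 1 + x 2 + (x 3 + x 4 + x 5) = 1) {N : ℕ} (hN : 1 ≤ N) :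
    (sq6 x N 0 + sq6 x N 1 + sq6 x N 2 + (sq6 x N 3 + sq6 x N 4 + sq6 x N 5) + 1 = N) ∧
    (∀ i, |(sq6 x N i : ℝ) - ((N : ℝ) - 1) * x i| ≤ 5) ∧
    (∀ i, i ≠ 2 → x i = 0 → sq6 x N i = 0) := by
  have hN1 : (0 : ℝ) ≤ (N : ℝ) - 1 := by
    have : (1 : ℝ) ≤ N := by exact_mod_cast hN
    linarith
  have fl : ∀ i, ((⌊((N : ℝ) - 1) * x i⌋₊ : ℕ) : ℝ) ≤ ((N : ℝ) - 1) * x i := fun i =>
    Nat.floor_le (mul_nonneg hN1 (hx i))
  have fu : ∀ i, ((N : ℝ) - 1) * x i < ((⌊((N : ℝ) - 1) * x i⌋₊ : ℕ) : ℝ) + 1 := fun i =>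
    Nat.lt_floor_add_one _
  obtain ⟨f0, h0⟩ : ∃ f, f = ⌊((N : ℝ) - 1) * x 0⌋₊ := ⟨_, rfl⟩
  obtain ⟨f1, h1⟩ : ∃ f, f = ⌊((N : ℝ) - 1) * x 1⌋₊ := ⟨_, rfl⟩
  obtain ⟨f3, h3⟩ : ∃ f, f = ⌊((N : ℝ) - 1) * x 3⌋₊ := ⟨_, rfl⟩
  obtain ⟨f4, h4⟩ : ∃ f, f = ⌊((N : ℝ) - 1) * x 4⌋₊ := ⟨_, rfl⟩
  obtain ⟨f5, h5⟩ : ∃ f, f = ⌊((N : ℝ) - 1) * x 5⌋₊ := ⟨_, rfl⟩
  have l0 := fl 0
  have l1 := fl 1
  have l3 := fl 3
  have l4 := fl 4
  have l5 := fl 5
  have u0 := fu 0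
  have u1 := fu 1
  have u3 := fu 3
  have u4 := fu 4
  have u5 := fu 5
  rw [← h0] at l0 u0
  rw [← h1] at l1 u1
  rw [← h3] at l3 u3
  rw [← h4] at l4 u4
  rw [← h5] at l5 u5
  have hsum : ((N : ℝ) - 1) * x 0 + ((N : ℝ) - 1) * x 1 + ((N : ℝ) - 1) * x 2 +
      (((N : ℝ) - 1) * x 3 + ((N : ℝ) - 1) * x 4 + ((N : ℝ) - 1) * x 5) = (N : ℝ) - 1 := by
    calc _ = ((N : ℝ) - 1) * (x 0 + x 1 + x 2 + (x 3 + x 4 + x 5)) := by ring
      _ = _ := by rw [hs, mul_one]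
  have h2nn : 0 ≤ ((N : ℝ) - 1) * x 2 := mul_nonneg hN1 (hx 2)
  have hle : f0 + f1 + f3 + f4 + f5 ≤ N - 1 := by
    have : ((f0 + f1 + f3 + f4 + f5 : ℕ) : ℝ) ≤ ((N - 1 : ℕ) : ℝ) := by
      rw [Nat.cast_sub hN]
      push_cast
      linarith
    exact_mod_cast this
  obtain ⟨f2, h2⟩ : ∃ f, f = (N - 1) - (f0 + f1 + f3 + f4 + f5) := ⟨_, rfl⟩
  have e0 : sq6 x N 0 = f0 := by rw [h0]; rfl
  have e1 : sq6 x N 1 = f1 := by rw [h1]; rfl
  have e2 : sq6 x N 2 = f2 := by rw [h2, h0, h1, h3, h4, h5]; rfl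
  have e3 : sq6 x N 3 = f3 := by rw [h3]; rfl
  have e4 : sq6 x N 4 = f4 := by rw [h4]; rfl
  have e5 : sq6 x N 5 = f5 := by rw [h5]; rfl
  have htot : f0 + f1 + f2 + (f3 + f4 + f5) + 1 = N := by omega
  have htotr : (f0 : ℝ) + f1 + f2 + (f3 + f4 + f5) + 1 = N := by exact_mod_cast htot
  refine ⟨?_, ?_, ?_⟩
  · rw [e0, e1, e2, e3, e4, e5]
    exact htot
  · intro i
    rw [abs_le]
    fin_cases i
    · show -5 ≤ (sq6 x N 0 : ℝ) - ((N : ℝ) - 1) * x 0 ∧ (sq6 x N 0 : ℝ) - ((N : ℝ) - 1) * x 0 ≤ 5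
      rw [e0]
      constructor <;> linarith
    · show -5 ≤ (sq6 x N 1 : ℝ) - ((N : ℝ) - 1) * x 1 ∧ (sq6 x N 1 : ℝ) - ((N : ℝ) - 1) * x 1 ≤ 5
      rw [e1]
      constructor <;> linarith
    · show -5 ≤ (sq6 x N 2 : ℝ) - ((N : ℝ) - 1) * x 2 ∧ (sq6 x N 2 : ℝ) - ((N : ℝ) - 1) * x 2 ≤ 5
      rw [e2]
      constructor <;> linarith
    · show -5 ≤ (sq6 x N 3 : ℝ) - ((N : ℝ) - 1) * x 3 ∧ (sq6 x N 3 : ℝ) - ((N : ℝ) - 1) * x 3 ≤ 5
      rw [e3]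
      constructor <;> linarith
    · show -5 ≤ (sq6 x N 4 : ℝ) - ((N : ℝ) - 1) * x 4 ∧ (sq6 x N 4 : ℝ) - ((N : ℝ) - 1) * x 4 ≤ 5
      rw [e4]
      constructor <;> linarith
    · show -5 ≤ (sq6 x N 5 : ℝ) - ((N : ℝ) - 1) * x 5 ∧ (sq6 x N 5 : ℝ) - ((N : ℝ) - 1) * x 5 ≤ 5
      rw [e5]
      constructor <;> linarith
  · intro i hi hxi
    have hfl : ⌊((N : ℝ) - 1) * x i⌋₊ = 0 := by rw [hxi, mul_zero, Nat.floor_zero]
    fin_cases i
    · exact hfl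
    · exact hfl
    · exact absurd rfl hi
    · exact hfl
    · exact hfl
    · exact hfl

theorem div_lim (c : ℝ) : Tendsto (fun N : ℕ => c / ((N : ℝ) - 1)) atTop (𝓝 0) := by
  have h1 : Tendsto (fun N : ℕ => (N : ℝ) - 1) atTop atTop :=
    tendsto_atTop_add_const_right _ _ tendsto_natCast_atTop_atTop
  exact h1.const_div_atTop c

theorem sq6_Y {x : Fin 6 → ℝ} (hx : ∀ i, 0 ≤ x i)
    (hs : x 0 + x 1 + x 2 + (x 3 + x 4 + x 5) = 1) :
    Tendsto (fun N : ℕ => fun i => (sq6 x N i : ℝ) / (N - 1)) atTop (𝓝 x) := by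
  rw [tendsto_pi_nhds]
  intro i
  rw [tendsto_iff_dist_tendsto_zero]
  refine squeeze_zero' (Eventually.of_forall fun _ => dist_nonneg) ?_ (div_lim 5)
  filter_upwards [eventually_ge_atTop 2] with N hN
  have hN1 : (0 : ℝ) < (N : ℝ) - 1 := by
    have : (2 : ℝ) ≤ N := by exact_mod_cast hN
    linarith
  rw [Real.dist_eq]
  have h1 := (sq6_spec hx hs (by omega : 1 ≤ N)).2.1 i
  have h2 : (sq6 x N i : ℝ) / (N - 1) - x i = ((sq6 x N i : ℝ) - ((N : ℝ) - 1) * x i) / (N - 1) := by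
    field_simp
  rw [h2, abs_div, abs_of_pos hN1]
  exact div_le_div_of_nonneg_right h1 hN1.le

theorem sq6_T {x : Fin 6 → ℝ} (hx : ∀ i, 0 ≤ x i)
    (hs : x 0 + x 1 + x 2 + (x 3 + x 4 + x 5) = 1) :
    Tendsto (fun N : ℕ => fun i => (sq6 x N i : ℝ) / N) atTop (𝓝 x) := by
  rw [tendsto_pi_nhds]
  intro i
  rw [tendsto_iff_dist_tendsto_zero]
  have h0 : Tendsto (fun N : ℕ => (5 + |x i|) / (N : ℝ)) atTop (𝓝 0) :=
    tendsto_const_div_atTop_nhds_zero_nat _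
  refine squeeze_zero' (Eventually.of_forall fun _ => dist_nonneg) ?_ h0
  filter_upwards [eventually_ge_atTop 1] with N hN
  have hN1 : (0 : ℝ) < (N : ℝ) := by exact_mod_cast hN
  rw [Real.dist_eq]
  have h1 := (sq6_spec hx hs hN).2.1 i
  have h2 : (sq6 x N i : ℝ) / N - x i =
      (((sq6 x N i : ℝ) - ((N : ℝ) - 1) * x i) - x i) / N := by
    field_simp
    ring
  rw [h2, abs_div, abs_of_pos hN1]
  refine div_le_div_of_nonneg_right ?_ hN1.le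
  exact (abs_sub _ _).trans (add_le_add h1 le_rfl)

/-! ### the two cases -/

/-- the conditions on a point -/
structure Vl (α x : Fin 6 → ℝ) : Prop where
  nn : ∀ i, 0 ≤ x i
  su : x 0 + x 1 + x 2 + (x 3 + x 4 + x 5) = 1
  z0 : α 0 = 0 → x 0 = 0
  z1 : α 1 = 0 → x 1 = 0 ∧ x 4 = 0
  z3 : α 3 = 0 → x 3 = 0

theorem Vl.cmp {α x : Fin 6 → ℝ} (h : Vl α x) {N : ℕ} (hN : 1 ≤ N) :
    Cmp α (sq6 x N 0) (sq6 x N 1 + sq6 x N 4) (sq6 x N 3) := by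
  have hz := (sq6_spec h.nn h.su hN).2.2
  refine ⟨fun h0 => hz 0 (by decide) (h.z0 h0), fun h1 => ?_,
    fun h3 => hz 3 (by decide) (h.z3 h3)⟩
  rw [hz 1 (by decide) (h.z1 h1).1, hz 4 (by decide) (h.z1 h1).2]

/-- the corners are inside -/
theorem core_a {C : ℝ} (hC : 0 < C) (hD : ∀ N m : ℕ, 2 ≤ N → m < N →
    D N m ≤ C * N ^ 2 * Real.exp (N * LL ((m : ℝ) / (N - 1))) ∧
    Real.exp (N * LL ((m : ℝ) / (N - 1))) ≤ C * N ^ 2 * D N m) {α x : Fin 6 → ℝ} {C0 κ : ℝ}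
    (hG : ∀ N n1 n2 A b C j : ℕ, n1 + n2 + 1 = N → j ≤ b → Cmp α A b C →
      bq N n2 A * bq N n1 C * (bq N n1 j * bq N n2 (b - j : ℕ)) *
        (bq N n1 (A + j : ℕ) * bq N n2 (C + (b - j) : ℕ)) ≤
      C0 * Real.exp (eX N α A b C - κ * (dX N α A b C n1 + ((j : ℝ) - N * α 1) ^ 2) / N))
    (hx : Vl α x) (h0 : x 0 < n2 x) (h3 : x 3 < n1 x) : pt x ≤ Gx α κ x := by
  have hY := sq6_Y hx.nn hx.su
  have c2 : Continuous fun x : Fin 6 → ℝ => n2 x := by unfold n2; fun_prop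
  have c1 : Continuous fun x : Fin 6 → ℝ => n1 x := by unfold n1; fun_prop
  have o0 : IsOpen {y : Fin 6 → ℝ | y 0 < n2 y} := isOpen_lt (continuous_apply 0) c2
  have o3 : IsOpen {y : Fin 6 → ℝ | y 3 < n1 y} := isOpen_lt (continuous_apply 3) c1
  refine lim_ineq (K := C ^ 18 * C0) (p := 36) (sq6 x) (sq6_T hx.nn hx.su) hY ?_
  filter_upwards [hY.eventually (o0.mem_nhds h0), hY.eventually (o3.mem_nhds h3),
    eventually_ge_atTop 2] with N g0 g3 hN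
  have hN1 : (0 : ℝ) < (N : ℝ) - 1 := by
    have : (2 : ℝ) ≤ N := by exact_mod_cast hN
    linarith
  obtain ⟨hs, -, -⟩ := sq6_spec hx.nn hx.su (by omega : 1 ≤ N)
  have hcmp := hx.cmp (by omega : 1 ≤ N)
  obtain ⟨a, ha⟩ : ∃ a, a = sq6 x N := ⟨_, rfl⟩
  rw [← ha] at g0 g3 hs hcmp ⊢
  have g0' : (a 0 : ℝ) / (N - 1) < (a 3 : ℝ) / (N - 1) + (a 4 : ℝ) / (N - 1) +
      (a 5 : ℝ) / (N - 1) := g0
  have g3' : (a 3 : ℝ) / (N - 1) < (a 0 : ℝ) / (N - 1) + (a 1 : ℝ) / (N - 1) +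
      (a 2 : ℝ) / (N - 1) := g3
  rw [← add_div, ← add_div, div_lt_div_iff_of_pos_right hN1] at g0' g3'
  have k0 : a 0 ≤ a 3 + a 4 + a 5 := by
    have : a 0 < a 3 + a 4 + a 5 := by exact_mod_cast g0'
    omega
  have k3 : a 3 ≤ a 0 + a 1 + a 2 := by
    have : a 3 < a 0 + a 1 + a 2 := by exact_mod_cast g3'
    omega
  obtain ⟨n, hn⟩ : ∃ n, n = a 0 + a 1 + a 2 := ⟨_, rfl⟩
  obtain ⟨m, hm⟩ : ∃ m, m = a 3 + a 4 + a 5 := ⟨_, rfl⟩
  have hnm : n + m + 1 = N := by omega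
  have hnN : n < N := by omega
  have hmN : m < N := by omega
  have h := hG N n m (a 0) (a 1 + a 4) (a 3) (a 1) hnm (by omega) hcmp
  rw [Nat.add_sub_cancel_left] at h
  have s1 : bq N n (a 0 + a 1 : ℕ) = bq N n (a 2) := by
    rw [← bq_symm hnN (by omega : a 0 + a 1 ≤ n)]
    congr 1
    exact_mod_cast (by omega : n - (a 0 + a 1) = a 2)
  have s2 : bq N m (a 3 + a 4 : ℕ) = bq N m (a 5) := by
    rw [← bq_symm hmN (by omega : a 3 + a 4 ≤ m)]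
    congr 1
    exact_mod_cast (by omega : m - (a 3 + a 4) = a 5)
  rw [s1, s2] at h
  rw [pt_tm, ← hn, ← hm]
  have b0 := (bq_bounds hC hD hN hmN (by omega : a 0 ≤ m)).1
  have b1 := (bq_bounds hC hD hN hnN (by omega : a 1 ≤ n)).1
  have b2 := (bq_bounds hC hD hN hnN (by omega : a 2 ≤ n)).1
  have b3 := (bq_bounds hC hD hN hnN (by omega : a 3 ≤ n)).1
  have b4 := (bq_bounds hC hD hN hmN (by omega : a 4 ≤ m)).1
  have b5 := (bq_bounds hC hD hN hmN (by omega : a 5 ≤ m)).1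
  have q0 : 0 ≤ bq N m (a 0) := bq_nonneg' hmN
  have q1 : 0 ≤ bq N n (a 1) := bq_nonneg' hnN
  have q2 : 0 ≤ bq N n (a 2) := bq_nonneg' hnN
  have q3 : 0 ≤ bq N n (a 3) := bq_nonneg' hnN
  have q4 : 0 ≤ bq N m (a 4) := bq_nonneg' hmN
  have q5 : 0 ≤ bq N m (a 5) := bq_nonneg' hmN
  obtain ⟨Q, hQ⟩ : ∃ Q, Q = (C * (N : ℝ) ^ 2) ^ 3 := ⟨_, rfl⟩
  have hQ0 : 0 ≤ Q := by rw [hQ]; positivity
  rw [← hQ] at b0 b1 b2 b3 b4 b5
  have hexp : Real.exp (N * (tm N m (a 0) + tm N n (a 1) + tm N n (a 2) + tm N n (a 3) +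
      tm N m (a 4) + tm N m (a 5))) = Real.exp (N * tm N m (a 0)) * Real.exp (N * tm N n (a 3)) *
      (Real.exp (N * tm N n (a 1)) * Real.exp (N * tm N m (a 4))) *
      (Real.exp (N * tm N n (a 2)) * Real.exp (N * tm N m (a 5))) := by
    rw [← Real.exp_add, ← Real.exp_add, ← Real.exp_add, ← Real.exp_add, ← Real.exp_add]
    congr 1
    ring
  rw [hexp]
  have hprod : Real.exp (N * tm N m (a 0)) * Real.exp (N * tm N n (a 3)) *
      (Real.exp (N * tm N n (a 1)) * Real.exp (N * tm N m (a 4))) *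
      (Real.exp (N * tm N n (a 2)) * Real.exp (N * tm N m (a 5))) ≤
      (Q * bq N m (a 0)) * (Q * bq N n (a 3)) * ((Q * bq N n (a 1)) * (Q * bq N m (a 4))) *
        ((Q * bq N n (a 2)) * (Q * bq N m (a 5))) := by
    gcongr
  refine hprod.trans ?_
  have hQ6 : Q ^ 6 = C ^ 18 * (N : ℝ) ^ 36 := by rw [hQ]; ring
  calc (Q * bq N m (a 0)) * (Q * bq N n (a 3)) * ((Q * bq N n (a 1)) * (Q * bq N m (a 4))) *
        ((Q * bq N n (a 2)) * (Q * bq N m (a 5))) =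
        Q ^ 6 * (bq N m (a 0) * bq N n (a 3) * (bq N n (a 1) * bq N m (a 4)) *
          (bq N n (a 2) * bq N m (a 5))) := by ring
    _ ≤ Q ^ 6 * (C0 * Real.exp (eX N α (a 0) (a 1 + a 4) (a 3) -
        κ * (dX N α (a 0) (a 1 + a 4) (a 3) n + ((a 1 : ℝ) - N * α 1) ^ 2) / N)) :=
        mul_le_mul_of_nonneg_left h (by positivity)
    _ = _ := by rw [hQ6]; ring

/-- the missing bracket -/
theorem miss {C : ℝ} (hC : 0 < C) (hD : ∀ N m : ℕ, 2 ≤ N → m < N →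
    D N m ≤ C * N ^ 2 * Real.exp (N * LL ((m : ℝ) / (N - 1))) ∧
    Real.exp (N * LL ((m : ℝ) / (N - 1))) ≤ C * N ^ 2 * D N m) {N n m A : ℕ} (hN : 2 ≤ N)
    (hnm : n + m + 1 = N) (hmA : m < A) (hA : A < N) :
    Real.exp (N * tm N m A) * bq N n (A - m : ℕ) ≤ (C * N ^ 2) ^ 3 := by
  have hN1 : (0 : ℝ) < (N : ℝ) - 1 := by
    have : (2 : ℝ) ≤ N := by exact_mod_cast hN
    linarith
  have hnmr : (n : ℝ) + m + 1 = N := by exact_mod_cast hnm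
  have h1 := (bq_bounds hC hD hN (by omega : n < N) (by omega : A - m ≤ n)).2
  have hsum : tm N m A + tm N n (A - m) = 0 := by
    unfold tm
    rw [Nat.cast_sub hmA.le]
    have e1 : ((m : ℝ) - A) / (N - 1) = -(((A : ℝ) - m) / (N - 1)) := by ring
    have e2 : ((n : ℝ) - (A - m)) / (N - 1) = 1 - (A : ℝ) / (N - 1) := by
      rw [eq_sub_iff_add_eq, ← add_div, div_eq_one_iff_eq hN1.ne']
      linarith
    have e3 : (n : ℝ) / (N - 1) = 1 - (m : ℝ) / (N - 1) := by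
      rw [eq_sub_iff_add_eq, ← add_div, div_eq_one_iff_eq hN1.ne']
      linarith
    rw [e1, e2, e3, LL_neg, LL_one_sub, LL_one_sub]
    ring
  calc Real.exp (N * tm N m A) * bq N n (A - m : ℕ) ≤
      Real.exp (N * tm N m A) * ((C * N ^ 2) ^ 3 * Real.exp (N * tm N n (A - m))) :=
        mul_le_mul_of_nonneg_left h1 (Real.exp_pos _).le
    _ = (C * N ^ 2) ^ 3 * (Real.exp (N * tm N m A) * Real.exp (N * tm N n (A - m))) := by ring
    _ = (C * N ^ 2) ^ 3 := by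
        rw [← Real.exp_add, ← mul_add, hsum, mul_zero, Real.exp_zero, mul_one]

/-- the first corner is outside -/
theorem core_b {C : ℝ} (hC : 0 < C) (hD : ∀ N m : ℕ, 2 ≤ N → m < N →
    D N m ≤ C * N ^ 2 * Real.exp (N * LL ((m : ℝ) / (N - 1))) ∧
    Real.exp (N * LL ((m : ℝ) / (N - 1))) ≤ C * N ^ 2 * D N m) {α x : Fin 6 → ℝ} {C0 κ : ℝ}
    (hG : ∀ N n1 n2 A b C j : ℕ, n1 + n2 + 1 = N → j ≤ b → A + b + C < N → Cmp α A b C → n2 < A →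
      bq N n1 C * (bq N n1 j * bq N n2 (b - j : ℕ)) *
        (bq N n1 (A + j : ℕ) * bq N n2 (C + (b - j) : ℕ)) ≤ bq N n1 (A - n2 : ℕ) *
      (C0 * Real.exp (eX N α A b C - κ * (dX N α A b C n1 + ((j : ℝ) - N * α 1) ^ 2) / N)))
    (hx : Vl α x) (h0 : n2 x < x 0) : pt x ≤ Gx α κ x := by
  have hY := sq6_Y hx.nn hx.su
  have c2 : Continuous fun x : Fin 6 → ℝ => n2 x := by unfold n2; fun_prop
  have o0 : IsOpen {y : Fin 6 → ℝ | n2 y < y 0} := isOpen_lt c2 (continuous_apply 0)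
  refine lim_ineq (K := C ^ 18 * C0) (p := 36) (sq6 x) (sq6_T hx.nn hx.su) hY ?_
  filter_upwards [hY.eventually (o0.mem_nhds h0), eventually_ge_atTop 2] with N g0 hN
  have hN1 : (0 : ℝ) < (N : ℝ) - 1 := by
    have : (2 : ℝ) ≤ N := by exact_mod_cast hN
    linarith
  obtain ⟨hs, -, -⟩ := sq6_spec hx.nn hx.su (by omega : 1 ≤ N)
  have hcmp := hx.cmp (by omega : 1 ≤ N)
  obtain ⟨a, ha⟩ : ∃ a, a = sq6 x N := ⟨_, rfl⟩
  rw [← ha] at g0 hs hcmp ⊢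
  have g0' : (a 3 : ℝ) / (N - 1) + (a 4 : ℝ) / (N - 1) + (a 5 : ℝ) / (N - 1) <
      (a 0 : ℝ) / (N - 1) := g0
  rw [← add_div, ← add_div, div_lt_div_iff_of_pos_right hN1] at g0'
  have k0 : a 3 + a 4 + a 5 < a 0 := by exact_mod_cast g0'
  obtain ⟨n, hn⟩ : ∃ n, n = a 0 + a 1 + a 2 := ⟨_, rfl⟩
  obtain ⟨m, hm⟩ : ∃ m, m = a 3 + a 4 + a 5 := ⟨_, rfl⟩
  have hnm : n + m + 1 = N := by omega
  have hnN : n < N := by omega
  have hmN : m < N := by omega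
  have h := hG N n m (a 0) (a 1 + a 4) (a 3) (a 1) hnm (by omega) (by omega) hcmp (by omega)
  rw [Nat.add_sub_cancel_left] at h
  have s1 : bq N n (a 0 + a 1 : ℕ) = bq N n (a 2) := by
    rw [← bq_symm hnN (by omega : a 0 + a 1 ≤ n)]
    congr 1
    exact_mod_cast (by omega : n - (a 0 + a 1) = a 2)
  have s2 : bq N m (a 3 + a 4 : ℕ) = bq N m (a 5) := by
    rw [← bq_symm hmN (by omega : a 3 + a 4 ≤ m)]
    congr 1
    exact_mod_cast (by omega : m - (a 3 + a 4) = a 5)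
  rw [s1, s2] at h
  rw [pt_tm, ← hn, ← hm]
  have b0 := miss hC hD hN hnm (by omega : m < a 0) (by omega)
  have b1 := (bq_bounds hC hD hN hnN (by omega : a 1 ≤ n)).1
  have b2 := (bq_bounds hC hD hN hnN (by omega : a 2 ≤ n)).1
  have b3 := (bq_bounds hC hD hN hnN (by omega : a 3 ≤ n)).1
  have b4 := (bq_bounds hC hD hN hmN (by omega : a 4 ≤ m)).1
  have b5 := (bq_bounds hC hD hN hmN (by omega : a 5 ≤ m)).1
  have hr : 1 ≤ bq N n (a 0 - m : ℕ) := d4 hnN (by omega)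
  obtain ⟨r, hre⟩ : ∃ r, r = bq N n (a 0 - m : ℕ) := ⟨_, rfl⟩
  rw [← hre] at b0 h hr
  have hr0 : 0 < r := by linarith
  have q1 : 0 ≤ bq N n (a 1) := bq_nonneg' hnN
  have q2 : 0 ≤ bq N n (a 2) := bq_nonneg' hnN
  have q3 : 0 ≤ bq N n (a 3) := bq_nonneg' hnN
  have q4 : 0 ≤ bq N m (a 4) := bq_nonneg' hmN
  have q5 : 0 ≤ bq N m (a 5) := bq_nonneg' hmN
  obtain ⟨Q, hQ⟩ : ∃ Q, Q = (C * (N : ℝ) ^ 2) ^ 3 := ⟨_, rfl⟩
  have hQ0 : 0 ≤ Q := by rw [hQ]; positivity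
  rw [← hQ] at b0 b1 b2 b3 b4 b5
  have hexp : Real.exp (N * (tm N m (a 0) + tm N n (a 1) + tm N n (a 2) + tm N n (a 3) +
      tm N m (a 4) + tm N m (a 5))) = Real.exp (N * tm N m (a 0)) * Real.exp (N * tm N n (a 3)) *
      (Real.exp (N * tm N n (a 1)) * Real.exp (N * tm N m (a 4))) *
      (Real.exp (N * tm N n (a 2)) * Real.exp (N * tm N m (a 5))) := by
    rw [← Real.exp_add, ← Real.exp_add, ← Real.exp_add, ← Real.exp_add, ← Real.exp_add]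
    congr 1
    ring
  rw [hexp]
  have hprod : (Real.exp (N * tm N m (a 0)) * r) * Real.exp (N * tm N n (a 3)) *
      (Real.exp (N * tm N n (a 1)) * Real.exp (N * tm N m (a 4))) *
      (Real.exp (N * tm N n (a 2)) * Real.exp (N * tm N m (a 5))) ≤
      Q * (Q * bq N n (a 3)) * ((Q * bq N n (a 1)) * (Q * bq N m (a 4))) *
        ((Q * bq N n (a 2)) * (Q * bq N m (a 5))) := by
    gcongr
  have hQ6 : Q ^ 6 = C ^ 18 * (N : ℝ) ^ 36 := by rw [hQ]; ring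
  refine le_of_mul_le_mul_right ?_ hr0
  calc Real.exp (N * tm N m (a 0)) * Real.exp (N * tm N n (a 3)) *
      (Real.exp (N * tm N n (a 1)) * Real.exp (N * tm N m (a 4))) *
      (Real.exp (N * tm N n (a 2)) * Real.exp (N * tm N m (a 5))) * r =
      (Real.exp (N * tm N m (a 0)) * r) * Real.exp (N * tm N n (a 3)) *
      (Real.exp (N * tm N n (a 1)) * Real.exp (N * tm N m (a 4))) *
      (Real.exp (N * tm N n (a 2)) * Real.exp (N * tm N m (a 5))) := by ring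
    _ ≤ _ := hprod
    _ = Q ^ 6 * (bq N n (a 3) * (bq N n (a 1) * bq N m (a 4)) *
          (bq N n (a 2) * bq N m (a 5))) := by ring
    _ ≤ Q ^ 6 * (r * (C0 * Real.exp (eX N α (a 0) (a 1 + a 4) (a 3) -
        κ * (dX N α (a 0) (a 1 + a 4) (a 3) n + ((a 1 : ℝ) - N * α 1) ^ 2) / N))) :=
        mul_le_mul_of_nonneg_left h (by positivity)
    _ = _ := by rw [hQ6]; ring

/-! ### reversal -/

theorem rv_ml {α : Fin 6 → ℝ} (h : Fr α) : ml (rv α) 0 = ml α 2 ∧ ml (rv α) 1 = ml α 1 ∧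
    ml (rv α) 2 = ml α 0 := by
  have h1 := rv_eX h 0 0 1 0
  unfold eX at h1
  simp only [Nat.cast_zero, Nat.cast_one, zero_mul, sub_zero, mul_zero, mul_one, zero_add,
    add_zero] at h1
  exact ⟨rfl, h1, rfl⟩

theorem rv_v0 (α : Fin 6 → ℝ) : v0 (rv α) = v0 α := by
  unfold v0
  rw [Fin.sum_univ_six, Fin.sum_univ_six, rv0, rv1, rv2, rv3, rv4, rv5]
  ring

theorem rv_mR {α : Fin 6 → ℝ} (h : Fr α) (a b c : ℝ) : mR (rv α) ![c, b, a] = mR α ![a, b, c] := by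
  obtain ⟨e0, e1, e2⟩ := rv_ml h
  unfold mR
  rw [Fin.sum_univ_three, Fin.sum_univ_three, e0, e1, e2]
  show ml α 2 * (c - α 3) + ml α 1 * (b - (α 4 + α 1)) + ml α 0 * (a - α 0) =
    ml α 0 * (a - α 0) + ml α 1 * (b - (α 1 + α 4)) + ml α 2 * (c - α 3)
  ring

theorem rv_Bal {α : Fin 6 → ℝ} (h : Fr α) (hB : Bal α) : Bal (rv α) := by
  refine ⟨fun h0 => ?_, fun h3 => ?_⟩
  · rw [rv_v0, rv_mR h]
    exact hB.2 h0
  · rw [rv_v0, rv_mR h]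
    exact hB.1 h3

theorem rv_Vl {α x : Fin 6 → ℝ} (h : Fr α) (hx : Vl α x) : Vl (rv α) (rx x) where
  nn := by
    intro i
    fin_cases i
    · exact hx.nn 3
    · exact hx.nn 4
    · exact hx.nn 5
    · exact hx.nn 0
    · exact hx.nn 1
    · exact hx.nn 2
  su := by
    have := hx.su
    show x 3 + x 4 + x 5 + (x 0 + x 1 + x 2) = 1
    linarith
  z0 := hx.z3
  z1 := fun h4 => by
    have h1 := hx.z1 (h.z14.2 h4)
    exact ⟨h1.2, h1.1⟩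
  z3 := hx.z0

theorem rv_Gx {α x : Fin 6 → ℝ} (h : Fr α) (hx : Vl α x) {κ : ℝ} (hκ : 0 ≤ κ) :
    Gx (rv α) κ (rx x) ≤ Gx α (κ / 3) x := by
  have hs := hx.su
  rw [Gx_eq, Gx_eq, rv_v0]
  have h1 : mR (rv α) ![rx x 0, rx x 1 + rx x 4, rx x 3] = mR α ![x 0, x 1 + x 4, x 3] := by
    show mR (rv α) ![x 3, x 4 + x 1, x 0] = _
    rw [rv_mR h, add_comm (x 4)]
  have h2 : Ex α x ≤ 3 * Ex (rv α) (rx x) := by
    unfold Ex
    show (x 0 - α 0) ^ 2 + (x 1 + x 4 - (α 1 + α 4)) ^ 2 + (x 3 - α 3) ^ 2 +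
      (x 0 + x 1 + x 2 - 1 / 2) ^ 2 + (x 1 - α 1) ^ 2 ≤ 3 * ((x 3 - α 3) ^ 2 +
        (x 4 + x 1 - (α 4 + α 1)) ^ 2 + (x 0 - α 0) ^ 2 + (x 3 + x 4 + x 5 - 1 / 2) ^ 2 +
        (x 4 - α 4) ^ 2)
    have e1 : x 3 + x 4 + x 5 - 1 / 2 = -(x 0 + x 1 + x 2 - 1 / 2) := by linarith
    obtain ⟨u, hu⟩ : ∃ u, u = x 1 + x 4 - (α 1 + α 4) := ⟨_, rfl⟩
    obtain ⟨v, hv⟩ : ∃ v, v = x 4 - α 4 := ⟨_, rfl⟩
    have e2 : x 1 - α 1 = u - v := by rw [hu, hv]; ring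
    have e3 : x 4 + x 1 - (α 4 + α 1) = u := by rw [hu]; ring
    rw [e1, e2, e3, ← hu, ← hv]
    nlinarith [sq_nonneg (u + v), sq_nonneg (x 0 - α 0), sq_nonneg (x 3 - α 3),
      sq_nonneg (x 0 + x 1 + x 2 - 1 / 2), sq_nonneg v, sq_nonneg u]
  rw [h1]
  have h3 : κ / 3 * Ex α x ≤ κ * Ex (rv α) (rx x) := by
    calc κ / 3 * Ex α x ≤ κ / 3 * (3 * Ex (rv α) (rx x)) :=
          mul_le_mul_of_nonneg_left h2 (by positivity)
      _ = _ := by ring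
  linarith

theorem Gx_mono {α x : Fin 6 → ℝ} {κ κ' : ℝ} (h : κ ≤ κ') : Gx α κ' x ≤ Gx α κ x := by
  unfold Gx
  have := mul_le_mul_of_nonneg_right h (Ex_nonneg α x)
  linarith

theorem Ex_pos {α x : Fin 6 → ℝ} (h : Fr α) (hx : Vl α x) (hne : x ≠ α) : 0 < Ex α x := by
  refine lt_of_le_of_ne (Ex_nonneg α x) fun h0 => hne ?_
  have hs := hx.su
  have s1 := h.s1
  have s2 := h.s2
  unfold Ex at h0
  have a1 := sq_nonneg (x 0 - α 0)
  have a2 := sq_nonneg (x 1 + x 4 - (α 1 + α 4))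
  have a3 := sq_nonneg (x 3 - α 3)
  have a4 := sq_nonneg (x 0 + x 1 + x 2 - 1 / 2)
  have a5 := sq_nonneg (x 1 - α 1)
  have b1 : x 0 - α 0 = 0 := pow_eq_zero_iff (two_ne_zero) |>.1 (by linarith)
  have b2 : x 1 + x 4 - (α 1 + α 4) = 0 := pow_eq_zero_iff (two_ne_zero) |>.1 (by linarith)
  have b3 : x 3 - α 3 = 0 := pow_eq_zero_iff (two_ne_zero) |>.1 (by linarith)
  have b4 : x 0 + x 1 + x 2 - 1 / 2 = 0 := pow_eq_zero_iff (two_ne_zero) |>.1 (by linarith)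
  have b5 : x 1 - α 1 = 0 := pow_eq_zero_iff (two_ne_zero) |>.1 (by linarith)
  funext i
  fin_cases i
  · show x 0 = α 0; linarith
  · show x 1 = α 1; linarith
  · show x 2 = α 2; linarith
  · show x 3 = α 3; linarith
  · show x 4 = α 4; linarith
  · show x 5 = α 5; linarith

/-- points on the segment to the centre -/
theorem seg_Vl {α x : Fin 6 → ℝ} (h : Fr α) (hx : Vl α x) {t : ℝ} (t0 : 0 ≤ t) (t1 : t ≤ 1) :
    Vl α (fun i => (1 - t) * x i + t * α i) where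
  nn := fun i => add_nonneg (mul_nonneg (by linarith) (hx.nn i)) (mul_nonneg t0 (h.nn i))
  su := by
    have h1 := hx.su
    have h2 := h.s1
    have h3 := h.s2
    have e : (1 - t) * x 0 + t * α 0 + ((1 - t) * x 1 + t * α 1) + ((1 - t) * x 2 + t * α 2) +
        ((1 - t) * x 3 + t * α 3 + ((1 - t) * x 4 + t * α 4) + ((1 - t) * x 5 + t * α 5)) =
        (1 - t) * (x 0 + x 1 + x 2 + (x 3 + x 4 + x 5)) +
          t * ((α 0 + α 1 + α 2) + (α 3 + α 4 + α 5)) := by ring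
    show (1 - t) * x 0 + t * α 0 + ((1 - t) * x 1 + t * α 1) + ((1 - t) * x 2 + t * α 2) +
        ((1 - t) * x 3 + t * α 3 + ((1 - t) * x 4 + t * α 4) + ((1 - t) * x 5 + t * α 5)) = 1
    rw [e, h1, h2, h3]
    ring
  z0 := fun h0 => by
    show (1 - t) * x 0 + t * α 0 = 0
    rw [hx.z0 h0, h0]; ring
  z1 := fun h1 => by
    refine ⟨?_, ?_⟩
    · show (1 - t) * x 1 + t * α 1 = 0
      rw [(hx.z1 h1).1, h1]; ring
    · show (1 - t) * x 4 + t * α 4 = 0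
      rw [(hx.z1 h1).2, h.z14.1 h1]; ring
  z3 := fun h3 => by
    show (1 - t) * x 3 + t * α 3 = 0
    rw [hx.z3 h3, h3]; ring

/-- JOB HU-RL -/
theorem task_RL : S_RL := by
  intro hLBD hTG hTG6 hHIM hT1 α hF hB x hxn hxs z0 z1 z3 hne
  obtain ⟨C, hC, hD⟩ := hLBD
  have hx : Vl α x := ⟨hxn, hxs, z0, z1, z3⟩
  obtain ⟨Ca, κa, hκa, hGa⟩ := hTG hT1 α hF
  obtain ⟨Cb, κb, hκb, hGb⟩ := hTG6 hHIM hTG hT1 α hF hB
  obtain ⟨Cc, κc, hκc, hGc⟩ := hTG6 hHIM hTG hT1 (rv α) (rv_Fr hF) (rv_Bal hF hB)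
  have key : ∃ κ : ℝ, 0 < κ ∧ pt x ≤ Gx α κ x := by
    by_cases c0 : n2 x < x 0
    · exact ⟨κb, hκb, core_b hC hD hGb hx c0⟩
    by_cases c3 : n1 x < x 3
    · refine ⟨κc / 3, by positivity, ?_⟩
      have h1 : n2 (rx x) < rx x 0 := c3
      have h2 := core_b hC hD hGc (rv_Vl hF hx) h1
      rw [pt_rx] at h2
      exact h2.trans (rv_Gx hF hx hκc.le)
    push Not at c0 c3
    refine ⟨κa, hκa, ?_⟩
    -- the limit
    have hseq : Tendsto (fun k : ℕ => fun i => (1 - 1 / ((k : ℝ) + 1)) * x i +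
        1 / ((k : ℝ) + 1) * α i) atTop (𝓝 x) := by
      rw [tendsto_pi_nhds]
      intro i
      have h1 := tendsto_one_div_add_atTop_nhds_zero_nat (𝕜 := ℝ)
      have h2 := ((h1.const_sub 1).mul_const (x i)).add (h1.mul_const (α i))
      simpa using h2
    refine le_of_tendsto_of_tendsto ((pt_cont.tendsto x).comp hseq)
      (((Gx_cont α κa).tendsto x).comp hseq) (Eventually.of_forall fun k => ?_)
    have t0 : 0 < 1 / ((k : ℝ) + 1) := by positivity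
    have t1 : 1 / ((k : ℝ) + 1) ≤ 1 := by
      rw [div_le_one (by positivity)]
      have : (0 : ℝ) ≤ k := Nat.cast_nonneg k
      linarith
    obtain ⟨t, ht⟩ : ∃ t, t = 1 / ((k : ℝ) + 1) := ⟨_, rfl⟩
    show pt (fun i => (1 - 1 / ((k : ℝ) + 1)) * x i + 1 / ((k : ℝ) + 1) * α i) ≤
      Gx α κa (fun i => (1 - 1 / ((k : ℝ) + 1)) * x i + 1 / ((k : ℝ) + 1) * α i)
    rw [← ht] at t0 t1 ⊢
    have l0 := (lt_half hF).1
    have l3 := (lt_half hF).2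
    refine core_a hC hD hGa (seg_Vl hF hx t0.le t1) ?_ ?_
    · have c0' : x 0 ≤ x 3 + x 4 + x 5 := c0
      have s2 := hF.s2
      show (1 - t) * x 0 + t * α 0 < (1 - t) * x 3 + t * α 3 + ((1 - t) * x 4 + t * α 4) +
        ((1 - t) * x 5 + t * α 5)
      have e : (1 - t) * x 3 + t * α 3 + ((1 - t) * x 4 + t * α 4) + ((1 - t) * x 5 + t * α 5) =
        (1 - t) * (x 3 + x 4 + x 5) + t * (α 3 + α 4 + α 5) := by ring
      rw [e, s2]
      have e1 : (1 - t) * x 0 ≤ (1 - t) * (x 3 + x 4 + x 5) :=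
        mul_le_mul_of_nonneg_left c0' (by linarith)
      have e2 : t * α 0 < t * (1 / 2) := mul_lt_mul_of_pos_left l0 t0
      linarith
    · have c3' : x 3 ≤ x 0 + x 1 + x 2 := c3
      have s1 := hF.s1
      show (1 - t) * x 3 + t * α 3 < (1 - t) * x 0 + t * α 0 + ((1 - t) * x 1 + t * α 1) +
        ((1 - t) * x 2 + t * α 2)
      have e : (1 - t) * x 0 + t * α 0 + ((1 - t) * x 1 + t * α 1) + ((1 - t) * x 2 + t * α 2) =
        (1 - t) * (x 0 + x 1 + x 2) + t * (α 0 + α 1 + α 2) := by ring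
      rw [e, s1]
      have e1 : (1 - t) * x 3 ≤ (1 - t) * (x 0 + x 1 + x 2) :=
        mul_le_mul_of_nonneg_left c3' (by linarith)
      have e2 : t * α 3 < t * (1 / 2) := mul_lt_mul_of_pos_left l3 t0
      linarith
  obtain ⟨κ, hκ, hle⟩ := key
  rw [Gx_eq] at hle
  have := mul_pos hκ (Ex_pos hF hx hne)
  linarith

end Pool.Agent.Q239.HU
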